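import Mathlib

/-!
# A monic real polynomial with a small value has a root nearby, unless it has a small critical value
-/

namespace Pool.Agent.SLPQ

open Polynomial

/-- A monic polynomial takes a large value at one of the points `w + k h`, `k ≤ d`. -/
theorem nr_large (p : ℝ[X]) (hp : p.Monic) (w h : ℝ) (hh : h ≠ 0) :
    ∃ k ≤ p.natDegree, (|h| / 2) ^ p.natDegree ≤ |p.eval (w + k * h)| := by
  set d := p.natDegree with hd
  set q : ℝ[X] := p.comp (C h * X + C w) with hq
  have hlin : (C h * X + C w : ℝ[X]).natDegree = 1 := natDegree_linear hh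
  have hqd : q.natDegree = d := by rw [hq, natDegree_comp, hlin, mul_one]
  have hql : q.leadingCoeff = h ^ d := by
    rw [hq, leadingCoeff_comp (by rw [hlin]; norm_num), hp.leadingCoeff, one_mul,
      leadingCoeff_linear hh]
  have hev : ∀ k : ℕ, q.eval (k : ℝ) = p.eval (w + k * h) := by
    intro k
    rw [hq, eval_comp]
    simp only [eval_add, eval_mul, eval_C, eval_X]
    congr 1; ring
  have h1 := congrFun q.fwdDiff_iter_degree_eq_factorial 0
  rw [hqd, hql, fwdDiff_iter_eq_sum_shift] at h1
  by_contra hcon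
  push Not at hcon
  have h2 : |∑ k ∈ Finset.range (d + 1), ((-1 : ℤ) ^ (d - k) * d.choose k) •
      q.eval (0 + k • (1:ℝ))| < (2:ℝ) ^ d * (|h| / 2) ^ d := by
    calc |∑ k ∈ Finset.range (d + 1), ((-1 : ℤ) ^ (d - k) * d.choose k) • q.eval (0 + k • (1:ℝ))|
        ≤ ∑ k ∈ Finset.range (d + 1), (d.choose k : ℝ) * |p.eval (w + k * h)| := by
          refine (Finset.abs_sum_le_sum_abs _ _).trans (le_of_eq (Finset.sum_congr rfl ?_))
          intro k _
          rw [zsmul_eq_mul, abs_mul, zero_add, nsmul_eq_mul, mul_one, hev]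
          push_cast
          rw [abs_mul, abs_pow, abs_neg, abs_one, one_pow, one_mul, Nat.abs_cast]
      _ < ∑ k ∈ Finset.range (d + 1), (d.choose k : ℝ) * (|h| / 2) ^ d := by
          refine Finset.sum_lt_sum (fun k hk => ?_) ⟨0, by simp, ?_⟩
          · exact mul_le_mul_of_nonneg_left
              (hcon k (by have := Finset.mem_range.1 hk; omega)).le (by positivity)
          · have := hcon 0 (Nat.zero_le _)
            rw [Nat.choose_zero_right]
            simpa using this
      _ = (2:ℝ) ^ d * (|h| / 2) ^ d := by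
          rw [← Finset.sum_mul]
          congr 1
          exact_mod_cast Nat.sum_range_choose d
  rw [h1] at h2
  have h3 : (2:ℝ) ^ d * (|h| / 2) ^ d = |h| ^ d := by
    rw [← mul_pow]; congr 1; ring
  rw [h3] at h2
  simp only [Pi.smul_apply, Pi.natCast_apply, smul_eq_mul] at h2
  rw [abs_mul, abs_pow, Nat.abs_cast] at h2
  have h4 : (1:ℝ) ≤ (d.factorial : ℝ) := by exact_mod_cast Nat.one_le_iff_ne_zero.2 d.factorial_ne_zero
  have h5 : 0 ≤ |h| ^ d := by positivity
  nlinarith

/-- **A small value has a root nearby, unless there is a small critical value.** -/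
theorem near_root {p : ℝ[X]} (hp : p.Monic) (hd : 1 ≤ p.natDegree) {B r w : ℝ} (hr : 0 < r)
    (hcrit : ∀ u : ℝ, |u - w| ≤ r → p.derivative.eval u = 0 → p.eval u ≠ 0 → 1 / B ≤ |p.eval u|)
    (h1 : |p.eval w| < 1 / B) (h2 : |p.eval w| < (r / (4 * p.natDegree)) ^ p.natDegree) :
    ∃ z, p.eval z = 0 ∧ |z - w| ≤ r := by
  set d := p.natDegree with hdd
  have hd0 : (0:ℝ) < d := by exact_mod_cast hd
  by_contra hcon
  push Not at hcon
  have hne : ∀ x, |x - w| ≤ r → p.eval x ≠ 0 := fun x hx h => absurd hx (not_le.2 (hcon x h))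
  -- large values on both sides
  have hside : ∀ σ : ℝ, (σ = 1 ∨ σ = -1) → ∃ t : ℝ, 0 < t ∧ t ≤ r ∧
      |p.eval w| < |p.eval (w + σ * t)| := by
    intro σ hσ
    have hσ0 : σ ≠ 0 := by rcases hσ with h | h <;> rw [h] <;> norm_num
    have hσa : |σ| = 1 := by rcases hσ with h | h <;> rw [h] <;> norm_num
    obtain ⟨k, hk, hl⟩ := nr_large p hp w (σ * (r / d)) (by positivity)
    rw [← hdd] at hk hl
    have h3 : |p.eval w| < |p.eval (w + k * (σ * (r / d)))| := by
      refine h2.trans_le (le_trans ?_ hl)
      refine pow_le_pow_left₀ (by positivity) ?_ d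
      rw [abs_mul, hσa, one_mul, abs_of_pos (by positivity), div_div,
        div_le_div_iff_of_pos_left hr (by positivity) (by positivity)]
      linarith
    have hk0 : k ≠ 0 := by
      rintro rfl
      simp at h3
    have hk1 : (1:ℝ) ≤ k := by exact_mod_cast Nat.one_le_iff_ne_zero.2 hk0
    have hkd : (k:ℝ) ≤ d := by exact_mod_cast hk
    refine ⟨k * (r / d), by positivity, ?_, ?_⟩
    · rw [mul_div_assoc', div_le_iff₀ hd0]
      nlinarith
    · have : w + σ * (k * (r / d)) = w + k * (σ * (r / d)) := by ring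
      rw [this]; exact h3
  obtain ⟨a, ha0, har, ha⟩ := hside (-1) (Or.inr rfl)
  obtain ⟨b, hb0, hbr, hb⟩ := hside 1 (Or.inl rfl)
  -- the minimum of `|p|`
  have hcont : ContinuousOn (fun x => |p.eval x|) (Set.Icc (w - a) (w + b)) :=
    p.continuous.abs.continuousOn
  obtain ⟨u, hu, hmin⟩ := isCompact_Icc.exists_isMinOn (s := Set.Icc (w - a) (w + b))
    ⟨w, by constructor <;> linarith⟩ hcont
  have huw : |p.eval u| ≤ |p.eval w| := hmin (by constructor <;> linarith)
  have ha' : |p.eval w| < |p.eval (w - a)| := by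
    have : w + -1 * a = w - a := by ring
    rwa [this] at ha
  have hb' : |p.eval w| < |p.eval (w + b)| := by
    have : w + 1 * b = w + b := by ring
    rwa [this] at hb
  have hu1 : w - a < u := by
    rcases hu.1.lt_or_eq with h | h
    · exact h
    · rw [← h] at huw; linarith
  have hu2 : u < w + b := by
    rcases hu.2.lt_or_eq with h | h
    · exact h
    · rw [h] at huw; linarith
  have hur : |u - w| ≤ r := by rw [abs_le]; constructor <;> linarith
  have hu0 := hne u hur
  have hloc : IsLocalMin (fun x => |p.eval x|) u := by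
    refine Filter.eventually_of_mem (Ioo_mem_nhds hu1 hu2) fun x hx => ?_
    exact hmin ⟨hx.1.le, hx.2.le⟩
  have hder : p.derivative.eval u = 0 := by
    have h4 : HasDerivAt (fun x => p.eval x) (p.derivative.eval u) u := p.hasDerivAt u
    rcases lt_or_gt_of_ne hu0 with h | h
    · have hloc2 : IsLocalMax (fun x => p.eval x) u := by
        have hev : ∀ᶠ x in nhds u, p.eval x < 0 :=
          (p.continuous.continuousAt (x := u)).eventually (gt_mem_nhds h)
        filter_upwards [hloc, hev] with x hx hx2
        rw [abs_of_neg h, abs_of_neg hx2] at hx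
        linarith
      exact hloc2.hasDerivAt_eq_zero h4
    · have hloc2 : IsLocalMin (fun x => p.eval x) u := by
        have hev : ∀ᶠ x in nhds u, 0 < p.eval x :=
          (p.continuous.continuousAt (x := u)).eventually (lt_mem_nhds h)
        filter_upwards [hloc, hev] with x hx hx2
        rw [abs_of_pos h, abs_of_pos hx2] at hx
        linarith
      exact hloc2.hasDerivAt_eq_zero h4
  have := hcrit u hur hder hu0
  linarith

end Pool.Agent.SLPQ
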