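import Pool.Agent.Lib_helper50.SLPQ.Guess
import Pool.Agent.Lib_helper53.SLPQ.Cmp

/-!
# The equivalences
-/

namespace Pool.Agent.SLPQ

/-- Entries of a valid program: quotients of entries are short. -/
theorem short_entry (q : SLP) (hq : q.Valid 1) (u v : ℕ) (hu : u ≤ q.length) (hv : v ≤ q.length)
    (h0 : (q.run ([1] : List ℤ)).getD v 0 ≠ 0) :
    Short q.length ((((q.run ([1] : List ℤ)).getD u 0 : ℤ) : ℚ) /
      (((q.run ([1] : List ℤ)).getD v 0 : ℤ) : ℚ)) := by
  have key : ∀ u ≤ q.length, ∃ A : SLP, A.Valid 1 ∧ A.length ≤ q.length ∧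
      A.val ([1] : List ℤ) = (q.run ([1] : List ℤ)).getD u 0 := by
    intro u hu
    have hsplit : q.take u ++ q.drop u = q := List.take_append_drop u q
    have hval := hq
    rw [← hsplit, valid_append] at hval
    refine ⟨q.take u, hval.1, by simp, ?_⟩
    have hlen : (SLP.run (q.take u) ([1] : List ℤ)).length = 1 + u := by
      rw [run_length]; simp [hu]
    have h1 := getD_last (SLP.run (q.take u) ([1] : List ℤ)) (by omega)
    rw [hlen, Nat.add_sub_cancel_left] at h1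
    rw [SLP.val, ← h1]
    conv_rhs => rw [← hsplit, run_append]
    exact (run_getD _ _ u (by omega)).symm
  obtain ⟨A, a1, a2, a3⟩ := key u hu
  obtain ⟨B, b1, b2, b3⟩ := key v hv
  exact ⟨A, B, a1, b1, a2, b2, by rw [b3]; exact h0, by rw [a3, b3]⟩

theorem Short.mono {s s' : ℕ} {q : ℚ} (h : Short s q) (hs : s ≤ s') : Short s' q := by
  obtain ⟨A, B, h1, h2, h3, h4, h5⟩ := h
  exact ⟨A, B, h1, h2, h3.trans hs, h4.trans hs, h5⟩

/-- Rational computations give short rational numbers. -/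
theorem cmpd_short {s : ℕ} {z : List ℝ} (h : Cmpd False s z) :
    ∃ z' : List ℚ, z'.length = z.length ∧ (∀ r ∈ z', Short (4 * s) r) ∧
      z'.map (fun r : ℚ => (r : ℝ)) = z := by
  obtain ⟨l, hl, hls, hz⟩ := h
  obtain ⟨q, hq1, hq2, hq3⟩ := hl.toSLP
  have key : ∀ a ∈ z, ∃ r : ℚ, Short (4 * s) r ∧ (r : ℝ) = a := by
    intro a ha
    obtain ⟨u, hu, v, hv, h0, he⟩ := hq3 a (hz a ha)
    have hlen : q.length ≤ 4 * s := hq2.trans (Nat.mul_le_mul_left _ hls)
    refine ⟨_, (short_entry q hq1 u v (by omega) (by omega) h0).mono hlen, ?_⟩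
    rw [he]
    push_cast
    rfl
  clear hz
  induction z with
  | nil => exact ⟨[], rfl, by simp, rfl⟩
  | cons a z ih =>
    obtain ⟨r, hr1, hr2⟩ := key a List.mem_cons_self
    obtain ⟨z', h1, h2, h3⟩ := ih fun a ha => key a (List.mem_cons_of_mem _ ha)
    refine ⟨r :: z', by simp [h1], ?_, by rw [List.map_cons, h3, hr2]⟩
    intro t ht
    rcases List.mem_cons.1 ht with rfl | ht
    · exact hr1
    · exact h2 t ht

/-- The values of integer programs are computed. -/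
theorem cmpd_of_val (A : SLP) : Cmpd False (A.length + 1) [((A.val ([1] : List ℤ) : ℤ) : ℝ)] := by
  have hl : Rt False [(0:ℝ)] := by
    have : Rt False [Op.sub.app (1:ℝ) 1] := .op .sub .nil (Or.inl rfl) (Or.inl rfl)
    simpa [Op.app] using this
  obtain ⟨l', h1, h2, h3, h4⟩ := hl.run A (by simp) [1] (by simp)
  refine ⟨l', h1, by simpa [Nat.add_comm] using h2, ?_⟩
  intro a ha
  rw [List.mem_singleton] at ha
  subst ha
  have h := val_map (Int.castRingHom ℝ) A ([1] : List ℤ)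
  have e : ([1] : List ℤ).map (Int.castRingHom ℝ) = ([1] : List ℝ) := by simp
  rw [e] at h
  have h5 : ((A.val ([1] : List ℤ) : ℤ) : ℝ) = A.val ([1] : List ℝ) := h.symm
  rw [h5, SLP.val]
  have hlen : (A.run ([1] : List ℝ)).length = 1 + A.length := by rw [run_length]; simp
  obtain ⟨w, f, hw⟩ := (List.eq_nil_or_concat (A.run ([1] : List ℝ))).resolve_left
    (by intro h; rw [h] at hlen; simp at hlen; omega)
  rw [List.concat_eq_append] at hw
  rw [hw] at h4 ⊢
  rw [List.getLastD_concat]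
  exact h4 f (by simp)

/-! ### the implications -/

theorem nondet_robust {n s : ℕ} {f : List Bool → Prop} (h : Nondet n f s) :
    RobustWitness n f (1600000 * (n + s + 1) ^ 4) := by
  obtain ⟨m, hm, C, hC, hf⟩ := h
  obtain ⟨G, hG1, hG2, hG3⟩ := one_variable n m C
  have hb : 100000 * (n + m + C.size + 1) ^ 4 ≤ 1600000 * (n + s + 1) ^ 4 := by
    have h1 : n + m + C.size + 1 ≤ 2 * (n + s + 1) := by omega
    calc 100000 * (n + m + C.size + 1) ^ 4 ≤ 100000 * (2 * (n + s + 1)) ^ 4 := by gcongr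
      _ = 1600000 * (n + s + 1) ^ 4 := by ring
  have hT : n + s + 1 ≤ (n + s + 1) ^ 4 := Nat.le_self_pow (by norm_num) _
  refine ⟨m, by omega, G, hG2.trans hb, hG1, fun x hx => ⟨?_, ?_⟩⟩
  · intro hnf t
    by_contra hcon
    push Not at hcon
    obtain ⟨y, hy1, hy2, -⟩ := (hG3 x hx).2 t hcon
    exact hnf ((hf x hx).2 ⟨y, hy1, hy2⟩)
  · intro hfx
    obtain ⟨y, hy1, hy2⟩ := (hf x hx).1 hfx
    refine ⟨num y, ?_, ?_⟩
    · rw [← hy1]; exact num_lt y
    · intro t ht
      exact (hG3 x hx).1 y hy1 hy2 t ht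

theorem nondet_onequery {n s : ℕ} {f : List Bool → Prop} (h : Nondet n f s) :
    OneQuery n f (1600000 * (n + s + 1) ^ 4) := by
  obtain ⟨m, hm, C, hC, hf⟩ := h
  obtain ⟨F, hF1, hF2, hF3⟩ := one_query (n + m) C
  have hb : 100000 * (n + m + C.size + 1) ^ 4 ≤ 1600000 * (n + s + 1) ^ 4 := by
    have h1 : n + m + C.size + 1 ≤ 2 * (n + s + 1) := by omega
    calc 100000 * (n + m + C.size + 1) ^ 4 ≤ 100000 * (2 * (n + s + 1)) ^ 4 := by gcongr
      _ = 1600000 * (n + s + 1) ^ 4 := by ring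
  have hT : n + s + 1 ≤ (n + s + 1) ^ 4 := Nat.le_self_pow (by norm_num) _
  refine ⟨m, by omega, F, hF2.trans hb, hF1, fun x hx => ?_⟩
  rw [hf x hx]
  constructor
  · rintro ⟨y, hy1, hy2⟩
    exact ⟨y, hy1, (hF3 (x ++ y) (by simp [hx, hy1])).1 hy2⟩
  · rintro ⟨y, hy1, hy2⟩
    exact ⟨y, hy1, (hF3 (x ++ y) (by simp [hx, hy1])).2 hy2⟩

theorem onequery_nondet {n s : ℕ} {f : List Bool → Prop} (h : OneQuery n f s) :
    Nondet n f (80 * (n + s + 1) ^ 2) := by
  obtain ⟨m, hm, F, hF1, hF2, hF3⟩ := h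
  obtain ⟨C, -, hC2, hC3⟩ := one_gate (n + m) F hF2
  have hb : 20 * (n + m + F.length + 1) ^ 2 ≤ 80 * (n + s + 1) ^ 2 := by
    have h1 : n + m + F.length + 1 ≤ 2 * (n + s + 1) := by omega
    calc 20 * (n + m + F.length + 1) ^ 2 ≤ 20 * (2 * (n + s + 1)) ^ 2 := by gcongr
      _ = 80 * (n + s + 1) ^ 2 := by ring
  have hT : n + s + 1 ≤ (n + s + 1) ^ 2 := Nat.le_self_pow (by norm_num) _
  refine ⟨m, by omega, C, hC2.trans hb, fun x hx => ?_⟩
  rw [hF3 x hx]
  constructor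
  · rintro ⟨y, hy1, hy2⟩
    exact ⟨y, hy1, (hC3 (x ++ y) (by simp [hx, hy1])).2 hy2⟩
  · rintro ⟨y, hy1, hy2⟩
    exact ⟨y, hy1, (hC3 (x ++ y) (by simp [hx, hy1])).1 hy2⟩

theorem robust_computed {n s : ℕ} {f : List Bool → Prop} (h : RobustWitness n f s) :
    ComputedWitness False n f (2 * s + 2) := by
  obtain ⟨m, hm, G, hG1, hG2, hG3⟩ := h
  refine ⟨1, by omega, G, by omega, hG2, fun x hx => ⟨?_, ?_⟩⟩
  · intro hnf z hz
    obtain ⟨t, rfl⟩ := List.length_eq_one_iff.1 hz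
    have := (hG3 x hx).1 hnf t
    linarith
  · intro hfx
    obtain ⟨t₀, h1, h2⟩ := (hG3 x hx).2 hfx
    obtain ⟨A, a1, a2, a3⟩ := short_nat m t₀ h1
    refine ⟨[(t₀ : ℝ)], rfl, ?_, ?_⟩
    · have h4 := cmpd_of_val A
      rw [a3] at h4
      have h5 : A.length + 1 ≤ 2 * s + 2 := by omega
      exact (Cmpd.mono id h5 h4 : Cmpd False (2 * s + 2) _)
    · have := h2 (t₀ : ℝ) (by simp)
      linarith

theorem computed_sqrt {n s : ℕ} {f : List Bool → Prop} (h : ComputedWitness False n f s) :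
    ComputedWitness True n f s := by
  obtain ⟨k, hk, F, hF1, hF2, hF3⟩ := h
  refine ⟨k, hk, F, hF1, hF2, fun x hx => ⟨(hF3 x hx).1, fun hfx => ?_⟩⟩
  obtain ⟨z, h1, h2, h3⟩ := (hF3 x hx).2 hfx
  exact ⟨z, h1, h2.mono (fun h => h.elim) le_rfl, h3⟩

theorem sqrt_computed {n s : ℕ} {f : List Bool → Prop} (h : ComputedWitness True n f s) :
    ComputedWitness False n f (700 * (s + 1) ^ 2) := by
  obtain ⟨k, hk, F, hF1, hF2, hF3⟩ := h
  have hT0 : s + 1 ≤ (s + 1) ^ 2 := Nat.le_self_pow (by norm_num) _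
  have hT : s ≤ 700 * (s + 1) ^ 2 := by omega
  refine ⟨k, hk.trans hT, F, hF1.trans hT, hF2, fun x hx => ⟨(hF3 x hx).1, fun hfx => ?_⟩⟩
  obtain ⟨z, h1, h2, h3⟩ := (hF3 x hx).2 hfx
  obtain ⟨z', g1, g2, g3⟩ := sqrt_free F x h2 h3
  refine ⟨z', g1.trans h1, g2.mono id ?_, g3⟩
  have h4 : s + F.length + 1 ≤ 2 * (s + 1) := by omega
  calc (s + F.length + 1) * (124 * (s + F.length + 1) + 47)
      ≤ (2 * (s + 1)) * (124 * (2 * (s + 1)) + 47) := by gcongr
    _ = 496 * (s + 1) ^ 2 + 94 * (s + 1) := by ring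
    _ ≤ 700 * (s + 1) ^ 2 := by omega

theorem computed_nondet {n s : ℕ} {f : List Bool → Prop} (h : ComputedWitness False n f s) :
    Nondet n f (2592000 * (n + s + 1) ^ 4) := by
  obtain ⟨k, hk, F, hF1, hF2, hF3⟩ := h
  obtain ⟨m, C, -, hm, hC, hxy⟩ := comp_gate n k (4 * s) F
  have hb : 2000 * (n + k + 4 * s + F.length + 1) ^ 4 ≤ 2592000 * (n + s + 1) ^ 4 := by
    have h1 : n + k + 4 * s + F.length + 1 ≤ 6 * (n + s + 1) := by omega
    calc 2000 * (n + k + 4 * s + F.length + 1) ^ 4 ≤ 2000 * (6 * (n + s + 1)) ^ 4 := by gcongr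
      _ = 2592000 * (n + s + 1) ^ 4 := by ring
  refine ⟨m, hm.trans hb, C, hC.trans hb, fun x hx => ⟨?_, ?_⟩⟩
  · intro hfx
    obtain ⟨z, h1, h2, h3⟩ := (hF3 x hx).2 hfx
    obtain ⟨z', g1, g2, g3⟩ := cmpd_short h2
    exact (hxy x hx).2 ⟨z', g1.trans h1, g2, by rw [g3]; exact h3⟩
  · intro hy
    obtain ⟨z, hz1, hz2⟩ := (hxy x hx).1 hy
    by_contra hnf
    exact absurd hz2 (not_lt.2 ((hF3 x hx).1 hnf z hz1))

/-- **Closure under adaptive queries.** -/
theorem turing_closure (n : ℕ) (C : Circ) :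
    (∃ F : SLP, F.Valid (1 + n) ∧ F.length ≤ 100000 * (n + C.size + 1) ^ 4 ∧
      ∀ w : List Bool, w.length = n → (C.out w = true ↔ PosSLP (bitProg w ++ F))) ∧
    ∃ D : Circ, D.queries = 1 ∧ D.size ≤ 10 ^ 12 * (n + C.size + 1) ^ 8 ∧
      ∀ w : List Bool, w.length = n → D.out w = C.out w := by
  obtain ⟨F, hF1, hF2, hF3⟩ := one_query n C
  refine ⟨⟨F, hF1, hF2, fun w hw => ?_⟩, ?_⟩
  · rw [hF3 w hw, PosSLP, valid_append, val_append, run_bitProg w [1] rfl, bitProg_length, hw]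
    constructor
    · intro h
      exact ⟨⟨bitProg_valid w 1 one_pos, hF1⟩, by simpa using h⟩
    · rintro ⟨-, h⟩
      simpa using h
  · obtain ⟨D, hD1, hD2, hD3⟩ := one_gate n F hF1
    refine ⟨D, hD1, hD2.trans ?_, fun w hw => ?_⟩
    · obtain ⟨T, hT⟩ : ∃ T, T = n + C.size + 1 := ⟨_, rfl⟩
      rw [← hT] at hF2 ⊢
      have h1 : T ≤ T ^ 4 := Nat.le_self_pow (by norm_num) _
      have h2 : n + F.length + 1 ≤ 200000 * T ^ 4 := by omega
      calc 20 * (n + F.length + 1) ^ 2 ≤ 20 * (200000 * T ^ 4) ^ 2 := by gcongr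
        _ = 800000000000 * T ^ 8 := by ring
        _ ≤ 10 ^ 12 * T ^ 8 := Nat.mul_le_mul_right _ (by norm_num)
    · have h := (hD3 w hw).trans (hF3 w hw).symm
      rcases h1 : D.out w <;> rcases h2 : C.out w <;> simp_all

/-! ### monotonicity in the size -/

theorem RobustWitness.mono {n s s' : ℕ} {f : List Bool → Prop} (h : RobustWitness n f s)
    (hs : s ≤ s') : RobustWitness n f s' := by
  obtain ⟨m, hm, G, hG1, hG2⟩ := h
  exact ⟨m, hm.trans hs, G, hG1.trans hs, hG2⟩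

theorem Nondet.mono {n s s' : ℕ} {f : List Bool → Prop} (h : Nondet n f s) (hs : s ≤ s') :
    Nondet n f s' := by
  obtain ⟨m, hm, G, hG1, hG2⟩ := h
  exact ⟨m, hm.trans hs, G, hG1.trans hs, hG2⟩

theorem OneQuery.mono {n s s' : ℕ} {f : List Bool → Prop} (h : OneQuery n f s) (hs : s ≤ s') :
    OneQuery n f s' := by
  obtain ⟨m, hm, G, hG1, hG2⟩ := h
  exact ⟨m, hm.trans hs, G, hG1.trans hs, hG2⟩

theorem ComputedWitness.mono {q : Prop} {n s s' : ℕ} {f : List Bool → Prop}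
    (h : ComputedWitness q n f s) (hs : s ≤ s') : ComputedWitness q n f s' := by
  obtain ⟨k, hk, F, hF1, hF2, hF3⟩ := h
  refine ⟨k, hk.trans hs, F, hF1.trans hs, hF2, fun x hx => ⟨(hF3 x hx).1, fun hfx => ?_⟩⟩
  obtain ⟨z, h1, h2, h3⟩ := (hF3 x hx).2 hfx
  exact ⟨z, h1, h2.mono id hs, h3⟩

/-! ### transfer of polynomial bounds -/

theorem poly_aux (a b c N : ℕ) (hN : 2 ≤ N) (n : ℕ) (hn : n ≤ N) :
    a * (n + N ^ c + 1) ^ b ≤ N ^ (a + (c + 2) * b) := by
  have h1 : n + N ^ c + 1 ≤ N ^ (c + 2) := by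
    have h2 : 1 ≤ N ^ c := Nat.one_le_pow _ _ (by omega)
    have h3 : N ^ (c + 2) = N ^ c * (N * N) := by rw [pow_add]; ring
    have h4 : N + N ≤ N * N := by nlinarith
    have h5 : N ^ c * (N + N) ≤ N ^ c * (N * N) := Nat.mul_le_mul_left _ h4
    have h6 : N ≤ N ^ c * N := Nat.le_mul_of_pos_left _ h2
    have h7 : N ^ c * 2 ≤ N ^ c * N := Nat.mul_le_mul_left _ hN
    have h8 : N ^ c * (N + N) = N ^ c * N + N ^ c * N := by ring
    rw [h3]
    omega
  have h2 : a ≤ N ^ a := (Nat.lt_two_pow_self).le.trans (Nat.pow_le_pow_left hN a)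
  calc a * (n + N ^ c + 1) ^ b ≤ N ^ a * (N ^ (c + 2)) ^ b :=
        Nat.mul_le_mul h2 (Nat.pow_le_pow_left h1 b)
    _ = N ^ (a + (c + 2) * b) := by rw [← pow_mul, ← pow_add]

theorem PolyLe.of {L M : ℕ → (List Bool → Prop) → ℕ → Prop} (a b : ℕ)
    (hM : ∀ n f s s', M n f s → s ≤ s' → M n f s')
    (h : ∀ n f s, L n f s → M n f (a * (n + s + 1) ^ b)) : PolyLe L M := by
  refine ⟨a + (1 + 2) * b, fun n f s hr => ?_⟩
  refine hM n f _ _ (h n f s hr) ?_
  refine le_trans ?_ (poly_aux a b 1 (n + s + 2) (by omega) n (by omega))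
  refine Nat.mul_le_mul_left _ (Nat.pow_le_pow_left ?_ _)
  rw [pow_one]; omega

theorem PolyLe.trans {L M N : ℕ → (List Bool → Prop) → ℕ → Prop}
    (hN : ∀ n f s s', N n f s → s ≤ s' → N n f s') (h1 : PolyLe L M) (h2 : PolyLe M N) :
    PolyLe L N := by
  obtain ⟨c, hc⟩ := h1
  obtain ⟨d, hd⟩ := h2
  refine ⟨1 + (c + 2) * (2 * d), fun n f s h => ?_⟩
  refine hN n f _ _ (hd n f _ (hc n f s h)) ?_
  refine le_trans ?_ (poly_aux 1 (2 * d) c (n + s + 2) (by omega) n (by omega))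
  rw [one_mul, pow_mul]
  refine Nat.pow_le_pow_left ?_ _
  have h2 : 1 ≤ (n + s + 2) ^ c := Nat.one_le_pow _ _ (by omega)
  nlinarith

theorem measures_mono : ∀ M ∈ measures, ∀ n f s s', M n f s → s ≤ s' → M n f s' := by
  intro M hM
  simp only [measures, List.mem_cons, List.not_mem_nil, or_false] at hM
  rcases hM with rfl | rfl | rfl | rfl | rfl
  · exact fun n f s s' h hs => h.mono hs
  · exact fun n f s s' h hs => h.mono hs
  · exact fun n f s s' h hs => h.mono hs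
  · exact fun n f s s' h hs => h.mono hs
  · exact fun n f s s' h hs => h.mono hs

theorem le_nondet : ∀ M ∈ measures, PolyLe M Nondet := by
  have m1 : ∀ n f s s', Nondet n f s → s ≤ s' → Nondet n f s' := fun n f s s' h hs => h.mono hs
  have m2 : ∀ n f s s', ComputedWitness False n f s → s ≤ s' → ComputedWitness False n f s' :=
    fun n f s s' h hs => h.mono hs
  have h4 : PolyLe (ComputedWitness False) Nondet :=
    PolyLe.of 2592000 4 m1 fun n f s h => computed_nondet h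
  intro M hM
  simp only [measures, List.mem_cons, List.not_mem_nil, or_false] at hM
  rcases hM with rfl | rfl | rfl | rfl | rfl
  · refine PolyLe.of 1 1 m1 fun n f s h => h.mono ?_
    rw [pow_one]; omega
  · exact PolyLe.of 80 2 m1 fun n f s h => onequery_nondet h
  · have h3 : PolyLe RobustWitness (ComputedWitness False) :=
      PolyLe.of 2 1 m2 fun n f s h => (robust_computed h).mono (by rw [pow_one]; omega)
    exact h3.trans m1 h4
  · exact h4
  · have h5 : PolyLe (ComputedWitness True) (ComputedWitness False) := by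
      refine PolyLe.of 700 2 m2 fun n f s h => (sqrt_computed h).mono ?_
      gcongr
      omega
    exact h5.trans m1 h4

theorem nondet_le : ∀ M ∈ measures, PolyLe Nondet M := by
  have m2 : ∀ n f s s', ComputedWitness False n f s → s ≤ s' → ComputedWitness False n f s' :=
    fun n f s s' h hs => h.mono hs
  have m3 : ∀ n f s s', RobustWitness n f s → s ≤ s' → RobustWitness n f s' :=
    fun n f s s' h hs => h.mono hs
  have h3 : PolyLe Nondet RobustWitness :=
    PolyLe.of 1600000 4 m3 fun n f s h => nondet_robust h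
  have h4 : PolyLe RobustWitness (ComputedWitness False) :=
    PolyLe.of 2 1 m2 fun n f s h => (robust_computed h).mono (by rw [pow_one]; omega)
  intro M hM
  simp only [measures, List.mem_cons, List.not_mem_nil, or_false] at hM
  rcases hM with rfl | rfl | rfl | rfl | rfl
  · refine PolyLe.of 1 1 (fun n f s s' h hs => h.mono hs) fun n f s h => h.mono ?_
    rw [pow_one]; omega
  · exact PolyLe.of 1600000 4 (fun n f s s' h hs => h.mono hs) fun n f s h => nondet_onequery h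
  · exact h3
  · exact h3.trans m2 h4
  · obtain ⟨c, hc⟩ := h3.trans m2 h4
    exact ⟨c, fun n f s h => computed_sqrt (hc n f s h)⟩

theorem main_measures : ∀ M ∈ measures, ∀ M' ∈ measures, PolyLe M M' ∧
    (PolyLe RealWitness M → PolyLe RealWitness M') := by
  intro M hM M' hM'
  have h := (le_nondet M hM).trans (measures_mono M' hM') (nondet_le M' hM')
  exact ⟨h, fun h' => h'.trans (measures_mono M' hM') h⟩

end Pool.Agent.SLPQ
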