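import Pool.Agent.Lib_helper53.SLPQ.Defs

/-!
# Complexity measures of a Boolean function (nonuniform): PosSLP circuits, one query,
real witnesses of several kinds
-/

namespace Pool.Agent.SLPQ

/-- A gate is an oracle gate. -/
def Gate.isPos : Gate → Bool
  | .nand _ _ => false
  | .pos _ => true

/-- The number of oracle gates of a circuit. -/
def Circ.queries (C : Circ) : ℕ := C.countP Gate.isPos

/-- The program which computes the bits `x`, starting from the entry `1`: an instruction
`1 · 1` for every bit `1` and an instruction `1 - 1` for every bit `0`. -/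
def bitProg (x : List Bool) : SLP := x.map fun c => (opOf c true, 0, 0)

/-- `f` (restricted to inputs of length `n`) is computed by a nondeterministic circuit with
(adaptive) `PosSLP` gates of size at most `s`, reading at most `s` guessed bits. -/
def Nondet (n : ℕ) (f : List Bool → Prop) (s : ℕ) : Prop :=
  ∃ m ≤ s, ∃ C : Circ, C.size ≤ s ∧ ∀ x : List Bool, x.length = n →
    (f x ↔ ∃ y : List Bool, y.length = m ∧ C.out (x ++ y) = true)

/-- One query: `f x` iff `F (x, y) > 0` for some `y ∈ {0,1}^m`, `m ≤ s`, where `F` is an integer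
straight line program with at most `s` instructions (initial entries `1`, `x`, `y`). -/
def OneQuery (n : ℕ) (f : List Bool → Prop) (s : ℕ) : Prop :=
  ∃ m ≤ s, ∃ F : SLP, F.length ≤ s ∧ F.Valid (1 + (n + m)) ∧ ∀ x : List Bool, x.length = n →
    (f x ↔ ∃ y : List Bool, y.length = m ∧ 0 < F.val ((1 : ℤ) :: (x ++ y).map bit))

/-- The existential problem over the reals: `f x` iff `F (x, z) > 0` for some `z ∈ ℝ^k`, `k ≤ s`,
where `F` is a straight line program with at most `s` instructions. -/
def RealWitness (n : ℕ) (f : List Bool → Prop) (s : ℕ) : Prop :=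
  ∃ k ≤ s, ∃ F : SLP, F.length ≤ s ∧ F.Valid (1 + (n + k)) ∧ ∀ x : List Bool, x.length = n →
    (f x ↔ ∃ z : List ℝ, z.length = k ∧ 0 < F.val ((1 : ℝ) :: (x.map bit ++ z)))

/-- As `RealWitness`, but if `F (x, z) > 0` has a solution `z` then it has one whose coordinates
are computed (together) in `s` steps from `1` with `+`, `-`, `·`, `/` and, if `q` holds, square
roots. -/
def ComputedWitness (q : Prop) (n : ℕ) (f : List Bool → Prop) (s : ℕ) : Prop :=
  ∃ k ≤ s, ∃ F : SLP, F.length ≤ s ∧ F.Valid (1 + (n + k)) ∧ ∀ x : List Bool, x.length = n →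
    (¬ f x → ∀ z : List ℝ, z.length = k → F.val ((1 : ℝ) :: (x.map bit ++ z)) ≤ 0) ∧
    (f x → ∃ z : List ℝ, z.length = k ∧ Cmpd q s z ∧ 0 < F.val ((1 : ℝ) :: (x.map bit ++ z)))

/-- Robust witnesses in one real variable: if `f x` fails then `G (x, t) ≤ -1` for all real `t`;
if `f x` holds then there is an integer `0 ≤ t₀ < 2^m`, `m ≤ s`, such that `G (x, t) ≥ 1` for all
real `t` with `|t - t₀| ≤ 1/8`. -/
def RobustWitness (n : ℕ) (f : List Bool → Prop) (s : ℕ) : Prop :=
  ∃ m ≤ s, ∃ G : SLP, G.length ≤ s ∧ G.Valid (1 + (n + 1)) ∧ ∀ x : List Bool, x.length = n →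
    (¬ f x → ∀ t : ℝ, G.val ((1 : ℝ) :: (x.map bit ++ [t])) ≤ -1) ∧
    (f x → ∃ t₀ : ℕ, t₀ < 2 ^ m ∧ ∀ t : ℝ, |t - t₀| ≤ 1 / 8 →
      1 ≤ G.val ((1 : ℝ) :: (x.map bit ++ [t])))

/-- The measure `M` is at least as powerful as `L`, up to polynomials: whatever has size `s` for
`L` has size at most `(n + s + 2) ^ c` for `M`. -/
def PolyLe (L M : ℕ → (List Bool → Prop) → ℕ → Prop) : Prop :=
  ∃ c : ℕ, ∀ (n : ℕ) (f : List Bool → Prop) (s : ℕ), L n f s → M n f ((n + s + 2) ^ c)

/-- The five measures. -/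
def measures : List (ℕ → (List Bool → Prop) → ℕ → Prop) :=
  [Nondet, OneQuery, RobustWitness, ComputedWitness False, ComputedWitness True]

end Pool.Agent.SLPQ
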