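import Pool.Agent.Lib_helper53.SLPQ.Gone
import Pool.Agent.Lib_helper50.SLPQ.Measures

/-!
# From straight line programs to one oracle gate
-/

namespace Pool.Agent.SLPQ

/-- The rational number `q` is a quotient of the values of two closed straight line programs
with at most `s` instructions. -/
def Short (s : ℕ) (q : ℚ) : Prop :=
  ∃ A B : SLP, A.Valid 1 ∧ B.Valid 1 ∧ A.length ≤ s ∧ B.length ≤ s ∧
    B.val ([1] : List ℤ) ≠ 0 ∧
      q = ((A.val ([1] : List ℤ) : ℤ) : ℚ) / ((B.val ([1] : List ℤ) : ℤ) : ℚ)

/-! ### numbers and bits -/

theorem num_testBit (b i : ℕ) (h : i < 2 ^ b) : num ((List.range b).map i.testBit) = i := by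
  induction b generalizing i with
  | zero => simp at h; simp [num, h]
  | succ b ih =>
    rw [List.range_succ_eq_map, List.map_cons, List.map_map, num]
    have e : (List.range b).map (i.testBit ∘ Nat.succ) = (List.range b).map (i / 2).testBit := by
      refine List.map_congr_left fun l _ => ?_
      simp [Nat.testBit_succ]
    rw [e, ih (i / 2) (by rw [pow_succ] at h; omega)]
    rw [Nat.testBit_zero]
    rcases Nat.mod_two_eq_zero_or_one i with h0 | h0 <;> simp [h0] <;> omega

/-- Wire which carries the constant `c`. -/
def cw (N : ℕ) (c : Bool) : ℕ := if c then N else N + 1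

/-- First bit of the code of an operation. -/
def Op.b1 : Op → Bool
  | .add => false
  | .sub => false
  | .mul => true

/-- Second bit of the code of an operation. -/
def Op.b2 : Op → Bool
  | .add => false
  | .sub => true
  | .mul => false

theorem opOf_b (o : Op) : opOf o.b1 o.b2 = o := by cases o <;> rfl

/-- Constant code of an instruction. -/
def cenc (N b : ℕ) (c : Op × ℕ × ℕ) : Enc :=
  ⟨cw N c.1.b1, cw N c.1.b2, (List.range b).map fun l => cw N (c.2.1.testBit l),
    (List.range b).map fun l => cw N (c.2.2.testBit l)⟩

/-- Code of the instruction which produces the bit on wire `k`. -/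
def xenc (N k : ℕ) : Enc := ⟨k, N, [], []⟩

theorem getD_true {w : List Bool} {N : ℕ} (hN : w.length = N) :
    (w ++ [true, false]).getD N false = true := by
  subst hN
  simp [List.getD_eq_getElem?_getD]

theorem getD_false {w : List Bool} {N : ℕ} (hN : w.length = N) :
    (w ++ [true, false]).getD (N + 1) false = false := by
  subst hN
  simp [List.getD_eq_getElem?_getD]

theorem getD_cw {w : List Bool} {N : ℕ} (hN : w.length = N) (c : Bool) :
    (w ++ [true, false]).getD (cw N c) false = c := by
  cases c
  · exact getD_false hN
  · exact getD_true hN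

theorem dec_cenc {w : List Bool} {N b : ℕ} (hN : w.length = N) (c : Op × ℕ × ℕ)
    (h1 : c.2.1 < 2 ^ b) (h2 : c.2.2 < 2 ^ b) : (cenc N b c).dec (w ++ [true, false]) = c := by
  obtain ⟨o, i, j⟩ := c
  simp only at h1 h2
  rw [Enc.dec, cenc]
  simp only [getD_cw hN, List.map_map, opOf_b]
  have e : ∀ i : ℕ, (List.range b).map ((fun k => (w ++ [true, false]).getD k false) ∘
      fun l => cw N (i.testBit l)) = (List.range b).map i.testBit := by
    intro i
    refine List.map_congr_left fun l _ => ?_
    exact getD_cw hN _
  rw [e, e, num_testBit _ _ h1, num_testBit _ _ h2]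

theorem dec_xenc {w : List Bool} {N k : ℕ} (hN : w.length = N) :
    (xenc N k).dec (w ++ [true, false]) =
      (opOf ((w ++ [true, false]).getD k false) true, 0, 0) := by
  rw [Enc.dec, xenc]
  simp only [getD_true hN]
  rfl

/-! ### the program producing the input bits -/

theorem run_bitProg {R : Type*} [Ring R] (x : List Bool) (a : List R) (ha : a.getD 0 0 = 1) :
    SLP.run (bitProg x) a = a ++ x.map bit := by
  induction x generalizing a with
  | nil => simp [bitProg, SLP.run]
  | cons c x ih =>
    rw [bitProg, List.map_cons, SLP.run]
    have h1 : (a ++ [(opOf c true).app (a.getD 0 0) (a.getD 0 0)]).getD 0 0 = 1 := by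
      cases a with
      | nil => simp at ha ⊢; cases c <;> simp [opOf, Op.app, ← ha]
      | cons b a => simpa using ha
    have := ih _ h1
    rw [bitProg] at this
    rw [this, ha]
    have : (opOf c true).app (1 : R) 1 = bit c := by
      cases c <;> simp [opOf, Op.app, bit]
    rw [this]
    simp

theorem bitProg_length (x : List Bool) : (bitProg x).length = x.length := by simp [bitProg]

theorem bitProg_valid (x : List Bool) (l : ℕ) (hl : 0 < l) : SLP.Valid (bitProg x) l := by
  induction x generalizing l with
  | nil => trivial
  | cons c x ih => exact ⟨hl, hl, ih (l + 1) (Nat.succ_pos _)⟩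

/-! ### a circuit with one oracle gate -/

/-- Two constants and one oracle gate. -/
def ocirc (N : ℕ) (E : List Enc) : Circ := [.nand N N, .nand N N, .pos E]

theorem ocirc_queries (N : ℕ) (E : List Enc) : (ocirc N E).queries = 1 := by
  simp [ocirc, Circ.queries, Gate.isPos]

theorem ocirc_size (N : ℕ) (E : List Enc) : (ocirc N E).size =
    7 + (E.map fun e => 2 + e.i.length + e.j.length).sum := by
  simp [ocirc, Circ.size, Gate.size]
  omega

theorem ocirc_out {N : ℕ} (E : List Enc) {w : List Bool} (hN : w.length = N) :
    (ocirc N E).out w = true ↔ PosSLP (E.map fun e => e.dec (w ++ [true, false])) := by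
  rw [Circ.out, ocirc, Circ.run, Circ.run, Circ.run, Circ.run]
  have h1 : (Gate.nand N N).val w = true := by
    rw [Gate.val]
    have : w.getD N false = false := by
      simp [List.getD_eq_getElem?_getD, List.getElem?_eq_none hN.le]
    rw [this]; rfl
  have h2 : (Gate.nand N N).val (w ++ [true]) = false := by
    rw [Gate.val]
    have : (w ++ [true]).getD N false = true := by
      subst hN
      simp [List.getD_eq_getElem?_getD]
    rw [this]; rfl
  rw [h1, h2, List.getLastD_concat, List.append_assoc]
  rw [Gate.val]
  simp

/-! ### validity and lengths -/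

theorem Valid_lt {F : SLP} {l : ℕ} (h : F.Valid l) {c : Op × ℕ × ℕ} (hc : c ∈ F) :
    c.2.1 < l + F.length ∧ c.2.2 < l + F.length := by
  induction F generalizing l with
  | nil => simp at hc
  | cons d F ih =>
    obtain ⟨o, i, j⟩ := d
    obtain ⟨h1, h2, h3⟩ := h
    rcases List.mem_cons.1 hc with rfl | hc
    · simp only [List.length_cons]; omega
    · have := ih h3 hc
      simp only [List.length_cons]; omega

theorem val_append {R : Type*} [Ring R] (p q : SLP) (a : List R) :
    SLP.val (p ++ q) a = SLP.val q (SLP.run p a) := by
  rw [SLP.val, SLP.val, run_append]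

/-- **One oracle gate.** The test `F (w) > 0` is a circuit with exactly one oracle gate. -/
theorem one_gate (N : ℕ) (F : SLP) (hF : F.Valid (1 + N)) : ∃ C : Circ, C.queries = 1 ∧
    C.size ≤ 20 * (N + F.length + 1) ^ 2 ∧ ∀ w : List Bool, w.length = N →
      (C.out w = true ↔ 0 < F.val ((1 : ℤ) :: w.map bit)) := by
  obtain ⟨b, hb⟩ : ∃ b, b = N + F.length + 1 := ⟨_, rfl⟩
  have hb2 : ∀ c ∈ F, c.2.1 < 2 ^ b ∧ c.2.2 < 2 ^ b := by
    intro c hc
    have := Valid_lt hF hc
    have h2 := Nat.lt_two_pow_self (n := b)
    omega
  refine ⟨ocirc N ((List.range N).map (xenc N) ++ F.map (cenc N b)), ocirc_queries _ _, ?_, ?_⟩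
  · rw [ocirc_size, List.map_append, List.map_map, List.map_map, List.sum_append]
    have e1 : (List.range N).map ((fun e : Enc => 2 + e.i.length + e.j.length) ∘ xenc N) =
        (List.range N).map fun _ => 2 := by
      refine List.map_congr_left fun l _ => ?_
      simp [xenc]
    have e2 : F.map ((fun e : Enc => 2 + e.i.length + e.j.length) ∘ cenc N b) =
        F.map fun _ => 2 + b + b := by
      refine List.map_congr_left fun l _ => ?_
      simp [cenc]
    rw [e1, e2]
    simp only [List.map_const', List.sum_replicate, List.length_range, smul_eq_mul]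
    rw [← hb]
    have : F.length ≤ b := by omega
    have h3 : F.length * (2 + b + b) ≤ b * (2 + b + b) := Nat.mul_le_mul_right _ this
    have h4 : b * (2 + b + b) = 2 * b + 2 * b ^ 2 := by ring
    have h5 : b ≤ b ^ 2 := Nat.le_self_pow (by norm_num) _
    have h6 : N ≤ b := by omega
    have h7 : 1 ≤ b := by omega
    omega
  · intro w hw
    rw [ocirc_out _ hw]
    have e1 : ((List.range N).map (xenc N) ++ F.map (cenc N b)).map
        (fun e => e.dec (w ++ [true, false])) = bitProg w ++ F := by
      rw [List.map_append, List.map_map, List.map_map]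
      congr 1
      · rw [bitProg]
        refine List.ext_getElem (by simp [hw]) ?_
        intro i h1 h2
        simp only [List.getElem_map, List.getElem_range, Function.comp]
        rw [dec_xenc hw]
        have hi : i < w.length := by simpa using h2
        have : (w ++ [true, false]).getD i false = w[i] := by
          rw [List.getD_eq_getElem?_getD, List.getElem?_append_left hi,
            List.getElem?_eq_getElem hi]
          rfl
        rw [this]
      · conv_rhs => rw [← List.map_id F]
        refine List.map_congr_left fun c hc => ?_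
        exact dec_cenc hw c (hb2 c hc).1 (hb2 c hc).2
    rw [e1, PosSLP, valid_append, val_append, run_bitProg w [1] rfl, bitProg_length, hw]
    constructor
    · rintro ⟨-, h⟩
      simpa using h
    · intro h
      exact ⟨⟨bitProg_valid w 1 one_pos, hF⟩, by simpa using h⟩

end Pool.Agent.SLPQ
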