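import Pool.Agent.Lib_helper50.SLPQ.Reloc

/-!
# Compressible witnesses are guessed by one oracle gate
-/

namespace Pool.Agent.SLPQ

/-- Wires of the `e`-th guessed instruction. -/
def genc (n b e : ℕ) : Enc :=
  ⟨n + (e * (2 + 2 * b) + 0), n + (e * (2 + 2 * b) + 1),
    (List.range b).map (fun l => n + (e * (2 + 2 * b) + (2 + l))),
    (List.range b).map (fun l => n + (e * (2 + 2 * b) + (2 + b + l)))⟩

/-- The `r`-th bit of the code of an instruction. -/
def gbit (b : ℕ) (c : Op × ℕ × ℕ) (r : ℕ) : Bool :=
  if r = 0 then c.1.b1 else if r = 1 then c.1.b2 else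
    if r < 2 + b then c.2.1.testBit (r - 2) else c.2.2.testBit (r - 2 - b)

/-- The bits of a guessed program. -/
def gcode (b : ℕ) (G : SLP) : List Bool :=
  (List.range (G.length * (2 + 2 * b))).map fun t =>
    gbit b (G.getD (t / (2 + 2 * b)) (.add, 0, 0)) (t % (2 + 2 * b))

theorem gcode_length (b : ℕ) (G : SLP) : (gcode b G).length = G.length * (2 + 2 * b) := by
  simp [gcode]

theorem gcode_get (b : ℕ) (G : SLP) (e r : ℕ) (he : e < G.length) (hr : r < 2 + 2 * b)
    (x : List Bool) (u : List Bool) :
    (x ++ gcode b G ++ u).getD (x.length + (e * (2 + 2 * b) + r)) false = gbit b G[e] r := by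
  have h1 : e * (2 + 2 * b) + r < G.length * (2 + 2 * b) := by
    have : (e + 1) * (2 + 2 * b) ≤ G.length * (2 + 2 * b) := Nat.mul_le_mul_right _ he
    rw [Nat.add_mul] at this
    omega
  simp only [List.getD_eq_getElem?_getD]
  rw [List.getElem?_append_left (by rw [List.length_append, gcode_length]; omega),
    List.getElem?_append_right (by omega), Nat.add_sub_cancel_left,
    List.getElem?_eq_getElem (by rw [gcode_length]; exact h1)]
  rw [Option.getD_some]
  simp only [gcode, List.getElem_map, List.getElem_range]
  have h2 : (e * (2 + 2 * b) + r) / (2 + 2 * b) = e := by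
    rw [Nat.add_comm, Nat.add_mul_div_right _ _ (by omega), Nat.div_eq_of_lt hr]
    omega
  have h3 : (e * (2 + 2 * b) + r) % (2 + 2 * b) = r := by
    rw [Nat.add_comm, Nat.add_mul_mod_self_right, Nat.mod_eq_of_lt hr]
  rw [h2, h3, List.getD_eq_getElem?_getD, List.getElem?_eq_getElem he]
  rfl

theorem dec_genc (b : ℕ) (G : SLP) (e : ℕ) (he : e < G.length) (x u : List Bool)
    (h1 : (G[e]).2.1 < 2 ^ b) (h2 : (G[e]).2.2 < 2 ^ b) :
    (genc x.length b e).dec (x ++ gcode b G ++ u) = G[e] := by
  rw [Enc.dec, genc]
  simp only [List.map_map]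
  rw [gcode_get b G e 0 he (by omega), gcode_get b G e 1 he (by omega)]
  have e1 : (List.range b).map ((fun k => (x ++ gcode b G ++ u).getD k false) ∘
      fun l => x.length + (e * (2 + 2 * b) + (2 + l))) =
      (List.range b).map (G[e]).2.1.testBit := by
    refine List.map_congr_left fun l hl => ?_
    rw [List.mem_range] at hl
    simp only [Function.comp]
    rw [gcode_get b G e (2 + l) he (by omega), gbit, if_neg (by omega), if_neg (by omega),
      if_pos (by omega), Nat.add_sub_cancel_left]
  have e2 : (List.range b).map ((fun k => (x ++ gcode b G ++ u).getD k false) ∘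
      fun l => x.length + (e * (2 + 2 * b) + (2 + b + l))) =
      (List.range b).map (G[e]).2.2.testBit := by
    refine List.map_congr_left fun l hl => ?_
    rw [List.mem_range] at hl
    simp only [Function.comp]
    rw [gcode_get b G e (2 + b + l) he (by omega), gbit, if_neg (by omega), if_neg (by omega),
      if_neg (by omega), show 2 + b + l - 2 - b = l by omega]
  rw [e1, e2, num_testBit _ _ h1, num_testBit _ _ h2]
  simp [gbit, opOf_b]

/-- Location of the inputs of the homogenised program. -/
def loc (n s i : ℕ) : ℕ := if i ≤ n then i else n + (i - n) * s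

/-- Values read by the homogenised program. -/
def rd (n s j k : ℕ) (r : List ℤ) : List ℤ :=
  (List.range k).map fun e => r.getD (n + (j + e + 1) * s) 0

theorem loc_spec (n k s : ℕ) (hs : 0 < s) (x r : List ℤ) (hx : x.length = n)
    (hr : r.length = 1 + n + 2 * k * s)
    (hpre : ∀ i < 1 + n, r.getD i 0 = ((1 : ℤ) :: x).getD i 0) (i : ℕ)
    (hi : i < 1 + (n + 2 * k)) :
    r.getD (loc n s i) 0 = ((1 : ℤ) :: (x ++ rd n s 0 k r ++ rd n s k k r)).getD i 0 ∧
      loc n s i < 1 + n + 2 * k * s := by
  rw [loc]
  split_ifs with h
  · refine ⟨?_, by omega⟩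
    rw [hpre i (by omega)]
    simp only [List.getD_eq_getElem?_getD]
    rw [← List.cons_append, ← List.cons_append, List.getElem?_append_left
      (by simp [rd, hx]; omega), List.getElem?_append_left (by simp [hx]; omega)]
  · obtain ⟨e, rfl⟩ : ∃ e, i = n + 1 + e := ⟨i - (n + 1), by omega⟩
    have hlt : n + (n + 1 + e - n) * s < 1 + n + 2 * k * s := by
      have : (n + 1 + e - n) * s ≤ 2 * k * s := Nat.mul_le_mul_right _ (by omega)
      omega
    refine ⟨?_, hlt⟩
    rw [show n + 1 + e - n = e + 1 by omega]
    simp only [List.getD_eq_getElem?_getD]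
    rw [show n + 1 + e = (n + e) + 1 by omega, List.getElem?_cons_succ]
    rcases Nat.lt_or_ge e k with he | he
    · rw [List.getElem?_append_left (by simp [rd, hx]; omega),
        List.getElem?_append_right (by omega), hx, Nat.add_sub_cancel_left, rd,
        List.getElem?_map, List.getElem?_range he]
      simp
    · rw [List.getElem?_append_right (by simp [rd, hx]; omega)]
      simp only [List.length_append, rd, List.length_map, List.length_range, hx]
      rw [show n + e - (n + k) = e - k by omega, List.getElem?_map,
        List.getElem?_range (by omega)]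
      simp only [Option.map_some, Option.getD_some, List.getD_eq_getElem?_getD]
      rw [show k + (e - k) + 1 = e + 1 by omega]

/-- **Compressible witnesses.** The search for a compressible real solution of `F (x, z) > 0` is
a nondeterministic circuit with one oracle gate. -/
theorem comp_gate (n k q : ℕ) (F : SLP) : ∃ (m : ℕ) (C : Circ), C.queries = 1 ∧
    m ≤ 2000 * (n + k + q + F.length + 1) ^ 4 ∧
    C.size ≤ 2000 * (n + k + q + F.length + 1) ^ 4 ∧
    ∀ x : List Bool, x.length = n →
      ((∃ y : List Bool, y.length = m ∧ C.out (x ++ y) = true) →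
        ∃ z : List ℝ, z.length = k ∧ 0 < F.val ((1 : ℝ) :: (x.map bit ++ z))) ∧
      ((∃ z : List ℚ, z.length = k ∧ (∀ r ∈ z, Short q r) ∧
        0 < F.val ((1 : ℝ) :: (x.map bit ++ z.map (fun r : ℚ => (r : ℝ))))) →
        ∃ y : List Bool, y.length = m ∧ C.out (x ++ y) = true) := by
  obtain ⟨H0, hv0, hlen0, hH0⟩ := hom n k F
  set H : SLP := H0 ++ [(Op.mul, 1 + (n + 2 * k) + H0.length - 1, 0)] with hHdef
  have hv : H.Valid (1 + (n + 2 * k)) := pad1_valid H0 _ (by omega) hv0
  have hHlen : H.length = H0.length + 1 := by rw [hHdef]; simp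
  have hval : ∀ a : List ℤ, a.length = 1 + (n + 2 * k) → a.getD 0 0 = 1 →
      H.val a = H0.val a := by
    intro a ha h1
    rw [hHdef, ← ha]
    exact pad1 H0 a h1 (by omega)
  obtain ⟨s, hs⟩ : ∃ s, s = q + 1 := ⟨_, rfl⟩
  obtain ⟨Q, hQ⟩ : ∃ Q, Q = 2 * k * s := ⟨_, rfl⟩
  obtain ⟨b, hb⟩ : ∃ b, b = 1 + n + Q + H.length := ⟨_, rfl⟩
  have hb2 : b < 2 ^ b := Nat.lt_two_pow_self
  obtain ⟨m, hm⟩ : ∃ m, m = Q * (2 + 2 * b) := ⟨_, rfl⟩
  set RH : SLP := reloc (loc n s) (1 + (n + 2 * k)) (1 + n + Q) H with hRH
  have hlocb : ∀ i < 1 + (n + 2 * k), loc n s i < 1 + n + Q := by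
    intro i hi
    rw [loc, hQ]
    split_ifs with h
    · omega
    · have : (i - n) * s ≤ 2 * k * s := Nat.mul_le_mul_right _ (by omega)
      omega
  have hRHv : RH.Valid (1 + n + Q) := reloc_valid _ _ _ hlocb H 0 hv
  have hRHb : ∀ c ∈ RH, c.2.1 < 2 ^ b ∧ c.2.2 < 2 ^ b := by
    intro c hc
    have := Valid_lt hRHv hc
    rw [hRH, reloc_length] at this
    omega
  set E : List Enc := (List.range n).map (xenc (n + m)) ++ (List.range Q).map (genc n b) ++
    RH.map (cenc (n + m) b) with hE
  -- the decoded program
  have hdec : ∀ x y : List Bool, x.length = n → y.length = m →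
      E.map (fun e => e.dec (x ++ y ++ [true, false])) =
        bitProg x ++ (List.range Q).map (fun e => (genc n b e).dec (x ++ y ++ [true, false])) ++
          RH := by
    intro x y hx hy
    have hw : (x ++ y).length = n + m := by simp [hx, hy]
    rw [hE, List.map_append, List.map_append, List.map_map, List.map_map, List.map_map]
    congr 1
    · congr 1
      rw [bitProg]
      refine List.ext_getElem (by simp [hx]) ?_
      intro i h1 h2
      simp only [List.getElem_map, List.getElem_range, Function.comp]
      rw [dec_xenc hw]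
      have hi : i < x.length := by simpa using h2
      have : (x ++ y ++ [true, false]).getD i false = x[i] := by
        rw [List.getD_eq_getElem?_getD, List.getElem?_append_left (by simp; omega),
          List.getElem?_append_left hi, List.getElem?_eq_getElem hi]
        rfl
      rw [this]
    · conv_rhs => rw [← List.map_id RH]
      refine List.map_congr_left fun c hc => ?_
      exact dec_cenc hw c (hRHb c hc).1 (hRHb c hc).2
  -- the value of a program of this form
  have hmain : ∀ x : List Bool, x.length = n → ∀ G : SLP, G.length = Q →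
      SLP.val (bitProg x ++ G ++ RH) ([1] : List ℤ) =
        H0.val ((1 : ℤ) :: (x.map bit ++ rd n s 0 k (G.run ((1 : ℤ) :: x.map bit)) ++
          rd n s k k (G.run ((1 : ℤ) :: x.map bit)))) := by
    intro x hx G hG
    set r : List ℤ := G.run ((1 : ℤ) :: x.map bit) with hr
    have hrl : r.length = 1 + n + Q := by
      rw [hr, run_length, hG]; simp [hx]; omega
    have hpre : ∀ i < 1 + n, r.getD i 0 = ((1 : ℤ) :: x.map bit).getD i 0 := by
      intro i hi
      exact run_getD G _ i (by simp [hx]; omega)
    set a : List ℤ := (1 : ℤ) :: (x.map bit ++ rd n s 0 k r ++ rd n s k k r) with ha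
    have hal : a.length = 1 + (n + 2 * k) := by rw [ha]; simp [rd, hx]; omega
    rw [val_append, run_append, run_bitProg x [1] rfl]
    have h1 : SLP.run G ([1] ++ x.map bit : List ℤ) = r := rfl
    rw [h1]
    have h2 := run_reloc (loc n s) (1 + (n + 2 * k)) (1 + n + Q) a r hal hrl (by
      intro i hi
      have := loc_spec n k s (by omega) (x.map bit) r (by simp [hx]) (by rw [hrl, hQ]) hpre i hi
      rw [← hQ] at this
      exact this) H [] hv
    rw [List.append_nil, List.append_nil] at h2
    rw [SLP.val, hRH, h2, ← hval a hal rfl, SLP.val]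
    have h3 : (H.run a).length = 1 + (n + 2 * k) + H.length := by rw [run_length, hal]
    obtain ⟨l, f, hlf⟩ := (List.eq_nil_or_concat (H.run a)).resolve_left
      (by intro h; simp [h] at h3; omega)
    rw [List.concat_eq_append] at hlf
    rw [hlf] at h3 ⊢
    rw [List.length_append, List.length_singleton] at h3
    rw [List.drop_append_of_le_length (by omega), ← List.append_assoc, List.getLastD_concat,
      List.getLastD_concat]
  obtain ⟨T, hT⟩ : ∃ T, T = n + k + q + F.length + 1 := ⟨_, rfl⟩
  have hT1 : 1 ≤ T := by omega
  have hTT : T ≤ T ^ 2 := Nat.le_self_pow (by norm_num) _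
  have hQT : Q ≤ 2 * T ^ 2 := by
    have h1 : k * s ≤ T * T := Nat.mul_le_mul (by omega) (by omega)
    rw [hQ, Nat.mul_assoc]
    calc 2 * (k * s) ≤ 2 * (T * T) := Nat.mul_le_mul_left _ h1
      _ = 2 * T ^ 2 := by ring
  have hHT : H.length ≤ 24 * T := by omega
  have hbT : 2 + 2 * b ≤ 56 * T ^ 2 := by omega
  have hmT : m ≤ 112 * T ^ 4 := by
    rw [hm]
    calc Q * (2 + 2 * b) ≤ (2 * T ^ 2) * (56 * T ^ 2) := Nat.mul_le_mul hQT hbT
      _ = 112 * T ^ 4 := by ring
  have hT4 : T ≤ T ^ 4 := Nat.le_self_pow (by norm_num) _
  have hT3 : T ^ 3 ≤ T ^ 4 := Nat.pow_le_pow_right hT1 (by norm_num)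
  rw [← hT]
  refine ⟨m, ocirc (n + m) E, ocirc_queries _ _, by omega, ?_, ?_⟩
  · rw [ocirc_size, hE, List.map_append, List.map_append, List.sum_append, List.sum_append,
      List.map_map, List.map_map, List.map_map]
    have e1 : (List.range n).map ((fun e : Enc => 2 + e.i.length + e.j.length) ∘ xenc (n + m)) =
        (List.range n).map fun _ => 2 := by
      refine List.map_congr_left fun l _ => ?_
      simp [xenc]
    have e2 : (List.range Q).map ((fun e : Enc => 2 + e.i.length + e.j.length) ∘ genc n b) =
        (List.range Q).map fun _ => 2 + b + b := by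
      refine List.map_congr_left fun l _ => ?_
      simp [genc]
    have e3 : RH.map ((fun e : Enc => 2 + e.i.length + e.j.length) ∘ cenc (n + m) b) =
        RH.map fun _ => 2 + b + b := by
      refine List.map_congr_left fun l _ => ?_
      simp [cenc]
    rw [e1, e2, e3]
    simp only [List.map_const', List.sum_replicate, List.length_range, smul_eq_mul]
    rw [hRH, reloc_length]
    have h1 : Q * (2 + b + b) = m := by rw [hm]; ring
    have h2 : H.length * (2 + b + b) ≤ 1344 * T ^ 3 := by
      calc H.length * (2 + b + b) ≤ (24 * T) * (56 * T ^ 2) :=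
            Nat.mul_le_mul hHT (by omega)
        _ = 1344 * T ^ 3 := by ring
    rw [h1]
    omega
  · intro x hx
    constructor
    · rintro ⟨y, hy, hout⟩
      have hw : (x ++ y).length = n + m := by simp [hx, hy]
      rw [ocirc_out _ hw, hdec x y hx hy] at hout
      obtain ⟨-, hpos⟩ := hout
      rw [hmain x hx _ (by simp)] at hpos
      obtain ⟨-, h2⟩ := (hH0 x _ _ hx (by simp [rd]) (by simp [rd])).1 hpos
      exact ⟨_, by simp [rd], h2⟩
    · rintro ⟨z, hz, hsh, hpos⟩
      -- the programs
      have hA : ∀ i : Fin z.length, ∃ A B : SLP, A.Valid 1 ∧ B.Valid 1 ∧ A.length = s ∧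
          B.length = s ∧ B.val ([1] : List ℤ) ≠ 0 ∧
          z[i] = ((A.val ([1] : List ℤ) : ℤ) : ℚ) / ((B.val ([1] : List ℤ) : ℤ) : ℚ) := by
        intro i
        obtain ⟨A, B, h1, h2, h3, h4, h5, h6⟩ := hsh z[i] (List.getElem_mem _)
        obtain ⟨A', a1, a2, a3⟩ := pad A h1 s (by omega)
        obtain ⟨B', b1, b2, b3⟩ := pad B h2 s (by omega)
        exact ⟨A', B', a1, b1, a2, b2, by rw [b3]; exact h5, by rw [a3, b3]; exact h6⟩
      choose A B hAv hBv hAl hBl hB0 hz2 using hA
      set L : List SLP := List.ofFn A ++ List.ofFn B with hL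
      have hLall : ∀ p ∈ L, p.length = s ∧ p.Valid 1 := by
        intro p hp
        rw [hL] at hp
        rcases List.mem_append.1 hp with hp | hp
        · obtain ⟨i, rfl⟩ := (List.mem_ofFn' _ _).1 hp
          exact ⟨hAl i, hAv i⟩
        · obtain ⟨i, rfl⟩ := (List.mem_ofFn' _ _).1 hp
          exact ⟨hBl i, hBv i⟩
      have hLlen : L.length = 2 * k := by rw [hL]; simp [hz]; omega
      set G : SLP := cat s (1 + n) L with hG
      have hGlen : G.length = Q := by
        rw [hG, cat_length s L (fun p hp => (hLall p hp).1), hLlen, hQ]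
      have hGv : G.Valid (1 + n) := cat_valid s L hLall _ (by omega)
      have hGb : ∀ c ∈ G, c.2.1 < 2 ^ b ∧ c.2.2 < 2 ^ b := by
        intro c hc
        have := Valid_lt hGv hc
        omega
      have hy : (gcode b G).length = m := by rw [gcode_length, hGlen, hm]
      refine ⟨gcode b G, hy, ?_⟩
      have hw : (x ++ gcode b G).length = n + m := by simp [hx, hy]
      rw [ocirc_out _ hw, hdec x _ hx hy]
      have hGd : (List.range Q).map (fun e => (genc n b e).dec (x ++ gcode b G ++ [true, false])) =
          G := by
        refine List.ext_getElem (by simp [hGlen]) ?_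
        intro i h1 h2
        simp only [List.getElem_map, List.getElem_range]
        have := dec_genc b G i h2 x [true, false] (hGb _ (List.getElem_mem _)).1
          (hGb _ (List.getElem_mem _)).2
        rw [hx] at this
        exact this
      rw [hGd]
      refine ⟨?_, ?_⟩
      · rw [valid_append, valid_append, bitProg_length, hx]
        refine ⟨⟨bitProg_valid x 1 one_pos, hGv⟩, ?_⟩
        rw [List.length_append, bitProg_length, hx, hGlen, ← Nat.add_assoc]
        exact hRHv
      · rw [hmain x hx G hGlen]
        have hrun : G.run ((1 : ℤ) :: x.map bit) = ((1 : ℤ) :: x.map bit) ++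
            L.flatMap fun p => (p.run ([1] : List ℤ)).drop 1 := by
          have := run_cat s L hLall ((1 : ℤ) :: x.map bit) (by simp) rfl
          rw [← this, hG]
          congr 2
          simp [hx]
          omega
        have hget : ∀ e, (he : e < L.length) →
            (G.run ((1 : ℤ) :: x.map bit)).getD (n + (e + 1) * s) 0 =
              (L[e]).val ([1] : List ℤ) := by
          intro e he
          have := cat_get s (by omega) L hLall ((1 : ℤ) :: x.map bit) e he
          rw [← this, hrun]
          congr 1
          simp [hx]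
        have hN : rd n s 0 k (G.run ((1 : ℤ) :: x.map bit)) =
            List.ofFn fun i => (A i).val ([1] : List ℤ) := by
          refine List.ext_getElem (by simp [rd, hz]) ?_
          intro i h1 h2
          have hi : i < k := by simpa [rd] using h1
          simp only [rd, List.getElem_map, List.getElem_range, List.getElem_ofFn]
          rw [Nat.zero_add, hget i (by omega)]
          congr 1
          simp only [hL]
          rw [List.getElem_append_left (by simp; omega), List.getElem_ofFn]
        have hD : rd n s k k (G.run ((1 : ℤ) :: x.map bit)) =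
            List.ofFn fun i => (B i).val ([1] : List ℤ) := by
          refine List.ext_getElem (by simp [rd, hz]) ?_
          intro i h1 h2
          have hi : i < k := by simpa [rd] using h1
          simp only [rd, List.getElem_map, List.getElem_range, List.getElem_ofFn]
          rw [hget (k + i) (by omega)]
          congr 1
          simp only [hL]
          rw [List.getElem_append_right (by simp; omega), List.getElem_ofFn]
          congr 1
          simp [hz]
        rw [hN, hD]
        refine (hH0 x _ _ hx (by simp [hz]) (by simp [hz])).2 ⟨?_, ?_⟩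
        · intro d hd
          obtain ⟨i, rfl⟩ := (List.mem_ofFn' _ _).1 hd
          exact hB0 i
        · have hzz : List.zipWith (fun a b : ℤ => (a : ℝ) / (b : ℝ))
              (List.ofFn fun i => (A i).val ([1] : List ℤ))
              (List.ofFn fun i => (B i).val ([1] : List ℤ)) = z.map (fun r : ℚ => (r : ℝ)) := by
            refine List.ext_getElem (by simp) ?_
            intro i h1 h2
            simp only [List.getElem_zipWith, List.getElem_ofFn, List.getElem_map]
            have := hz2 ⟨i, by simpa using h2⟩
            simp only [Fin.getElem_fin] at this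
            rw [this]
            push_cast
            rfl
          rw [hzz]
          exact hpos

end Pool.Agent.SLPQ
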