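import Pool.Agent.Lib_helper50.SLPQ.Enc

/-!
# Quotients as inputs: homogenisation
-/

namespace Pool.Agent.SLPQ

theorem app_fun {X : Type*} (o : Op) (f g : X → ℝ) :
    o.app f g = fun x => o.app (f x) (g x) := by
  cases o <;> rfl

theorem getD_mem_or {X : Type*} {B : Set (X → ℝ)} (h0 : (0 : X → ℝ) ∈ B) (b : List (X → ℝ))
    (hb : ∀ f ∈ b, f ∈ B) (i : ℕ) : b.getD i 0 ∈ B := by
  by_cases hi : i < b.length
  · rw [List.getD_eq_getElem?_getD, List.getElem?_eq_getElem hi]
    exact hb _ (List.getElem_mem hi)
  · rw [List.getD_eq_getElem?_getD, List.getElem?_eq_none (not_lt.1 hi)]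
    exact h0

/-- Running a program on functions. -/
theorem slp_cost {X : Type*} {d : Prop} (F : SLP) {B : Set (X → ℝ)} (h0 : (0 : X → ℝ) ∈ B)
    (b : List (X → ℝ)) (hb : ∀ f ∈ b, f ∈ B) : CS d B F.length {f | f ∈ F.run b} := by
  induction F generalizing B b with
  | nil => exact CS.zero fun f hf => hb f hf
  | cons c p ih =>
    obtain ⟨o, i, j⟩ := c
    rw [SLP.run]
    have h1 := CS.op1 (d := d) o (getD_mem_or h0 b hb i) (getD_mem_or h0 b hb j)
    rw [← app_fun] at h1
    have h2 := h1.trans (ih (B := B ∪ {o.app (b.getD i 0) (b.getD j 0)}) (Or.inl h0)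
      (b ++ [o.app (b.getD i 0) (b.getD j 0)]) (by
        intro f hf
        rcases List.mem_append.1 hf with hf | hf
        · exact Or.inl (hb f hf)
        · exact Or.inr (by simpa using hf)))
    refine (h2.sub Set.subset_union_right).le ?_
    rw [List.length_cons]; omega

theorem getLastD_mem {X : Type*} {B : Set (X → ℝ)} (h0 : (0 : X → ℝ) ∈ B) (l : List (X → ℝ)) :
    l.getLastD 0 ∈ B ∪ {f | f ∈ l} := by
  by_cases hne : l = []
  · rw [hne]; exact Or.inl h0
  · obtain ⟨l', f, h⟩ := (List.eq_nil_or_concat l).resolve_left hne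
    refine Or.inr ?_
    show l.getLastD 0 ∈ l
    rw [h]; simp

/-- The domain: points with nonzero denominators. -/
abbrev HX (n k : ℕ) : Type :=
  {w : List ℝ // ∀ i < k, 1 ≤ w.getD (n + k + i) 0 * w.getD (n + k + i) 0}

/-- Coordinates. -/
def hc (n k i : ℕ) (w : HX n k) : ℝ := w.1.getD i 0

/-- Quotients. -/
noncomputable def hq (n k i : ℕ) (w : HX n k) : ℝ :=
  (hc n k (n + i) w * hc n k (n + k + i) w) / (hc n k (n + k + i) w * hc n k (n + k + i) w)

theorem hq_eq (n k i : ℕ) (hi : i < k) (w : HX n k) :
    hq n k i w = w.1.getD (n + i) 0 / w.1.getD (n + k + i) 0 := by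
  have h := w.2 i hi
  have h0 : w.1.getD (n + k + i) 0 ≠ 0 := by
    intro h0
    rw [h0] at h
    norm_num at h
  rw [hq, hc, hc, mul_div_mul_right _ _ h0]

theorem hq_cost (n k : ℕ) {B : Set (HX n k → ℝ)} (hB : ∀ i < n + 2 * k, hc n k i ∈ B)
    (r : ℕ) (hr : r ≤ k) : CS True B (3 * r) {f | f ∈ (List.range r).map (hq n k)} := by
  induction r with
  | zero => exact CS.zero (by intro f hf; simp at hf)
  | succ r ih =>
    have h1 : CS True B 0 {hc n k (n + r)} := CS.mem (hB _ (by omega))
    have h2 : CS True B 0 {hc n k (n + k + r)} := CS.mem (hB _ (by omega))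
    have h3 := CS.div2 (CS.mul h1 h2) (CS.mul h2 h2) (fun x => x.2 r (by omega))
    refine (((ih (by omega)).union h3).sub ?_).le (by omega)
    intro f hf
    rw [List.range_succ, List.map_append] at hf
    rcases List.mem_append.1 hf with hf | hf
    · exact Or.inl hf
    · refine Or.inr ?_
      rw [List.map_singleton, List.mem_singleton] at hf
      exact hf

theorem hom_aux (n k : ℕ) (F : SLP) : ∃ H : SLP, H.Valid (1 + (n + 2 * k)) ∧
    H.length ≤ 4 * (3 * k + F.length + 1) + 1 ∧ ∀ x N D : List ℝ, x.length = n → N.length = k →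
      D.length = k → (∀ d ∈ D, 1 ≤ d * d) → ∃ c : ℝ, 1 ≤ c ∧
        H.val (1 :: (x ++ N ++ D)) = F.val (1 :: (x ++ List.zipWith (· / ·) N D)) * c := by
  set b : List (HX n k → ℝ) := 1 :: (List.range (n + 2 * k)).map (hc n k) with hb
  have h1 : (1 : HX n k → ℝ) ∈ b := by simp [hb]
  set B : Set (HX n k → ℝ) := {f | f ∈ b} ∪ {0} with hBdef
  have h0 : (0 : HX n k → ℝ) ∈ B := Or.inr rfl
  have hcB : ∀ i < n + 2 * k, hc n k i ∈ B := by
    intro i hi
    refine Or.inl ?_
    show hc n k i ∈ b
    rw [hb]
    exact List.mem_cons_of_mem _ (List.mem_map.2 ⟨i, by simpa using hi, rfl⟩)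
  have c1 := hq_cost n k hcB k le_rfl
  set bF : List (HX n k → ℝ) := 1 :: ((List.range n).map (hc n k) ++ (List.range k).map (hq n k))
    with hbF
  have c2 := c1.trans (slp_cost (d := True) F (B := B ∪ {f | f ∈ (List.range k).map (hq n k)})
    (Or.inl h0) bF (by
      intro f hf
      rw [hbF] at hf
      rcases List.mem_cons.1 hf with rfl | hf
      · exact Or.inl (Or.inl h1)
      · rcases List.mem_append.1 hf with hf | hf
        · obtain ⟨i, hi, rfl⟩ := List.mem_map.1 hf
          exact Or.inl (hcB i (by simp at hi; omega))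
        · exact Or.inr hf))
  have c3 : CS True B (3 * k + F.length) {F.val bF} := by
    obtain ⟨l, hl1, hl2, hl3⟩ := c2
    refine ⟨l, hl1, hl2, ?_⟩
    intro f hf
    rw [Set.mem_singleton_iff] at hf
    subst hf
    rcases getLastD_mem h0 (F.run bF) with h | h
    · exact Or.inl h
    · exact hl3 _ (Or.inr h)
  obtain ⟨H, hv, hlen, hH⟩ := to_prog b h1 c3
  have hblen : b.length = 1 + (n + 2 * k) := by rw [hb]; simp; omega
  refine ⟨H, hblen ▸ hv, hlen, ?_⟩
  intro x N D hx hN hD hDs
  have hlenw : (x ++ N ++ D).length = n + 2 * k := by simp [hx, hN, hD]; omega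
  have gD : ∀ i < k, (x ++ N ++ D).getD (n + k + i) 0 = D.getD i 0 := by
    intro i hi
    simp only [List.getD_eq_getElem?_getD]
    rw [List.getElem?_append_right (by simp [hx, hN])]
    simp [hx, hN]
  have gN : ∀ i < k, (x ++ N ++ D).getD (n + i) 0 = N.getD i 0 := by
    intro i hi
    simp only [List.getD_eq_getElem?_getD]
    rw [List.getElem?_append_left (by simp [hx, hN]; omega),
      List.getElem?_append_right (by simp [hx])]
    simp [hx]
  have gx : ∀ i < n, (x ++ N ++ D).getD i 0 = x.getD i 0 := by
    intro i hi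
    simp only [List.getD_eq_getElem?_getD]
    rw [List.getElem?_append_left (by simp [hx, hN]; omega),
      List.getElem?_append_left (by simp [hx]; omega)]
  let w : HX n k := ⟨x ++ N ++ D, by
    intro i hi
    rw [gD i hi]
    refine hDs _ ?_
    rw [List.getD_eq_getElem?_getD, List.getElem?_eq_getElem (by omega)]
    exact List.getElem_mem _⟩
  obtain ⟨c, hc1, hc2⟩ := hH w
  refine ⟨c, hc1, ?_⟩
  have e1 : (b.map fun g => g w) = 1 :: (x ++ N ++ D) := by
    rw [hb, List.map_cons, List.map_map]
    congr 1
    refine List.ext_getElem (by simp [hx, hN, hD]; omega) ?_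
    intro i h1 h2
    simp only [List.getElem_map, List.getElem_range, Function.comp, hc]
    show (x ++ N ++ D).getD i 0 = _
    rw [List.getD_eq_getElem?_getD, List.getElem?_eq_getElem h2]
    rfl
  have e2 : F.val bF w = F.val (1 :: (x ++ List.zipWith (· / ·) N D)) := by
    have := val_map (ev w) F bF
    rw [ev_apply] at this
    rw [← this]
    congr 1
    rw [hbF, List.map_cons, map_one, List.map_append, List.map_map, List.map_map]
    congr 1
    congr 1
    · refine List.ext_getElem (by simp [hx]) ?_
      intro i h1 h2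
      simp only [List.getElem_map, List.getElem_range, Function.comp, ev_apply, hc]
      show (x ++ N ++ D).getD i 0 = _
      rw [gx i (by simpa using h1), List.getD_eq_getElem?_getD, List.getElem?_eq_getElem h2]
      rfl
    · refine List.ext_getElem (by simp [hN, hD]) ?_
      intro i h1 h2
      have hi : i < k := by simpa using h1
      simp only [List.getElem_map, List.getElem_range, Function.comp, ev_apply,
        List.getElem_zipWith]
      rw [hq_eq n k i hi]
      show (x ++ N ++ D).getD (n + i) 0 / (x ++ N ++ D).getD (n + k + i) 0 = _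
      rw [gN i hi, gD i hi, List.getD_eq_getElem?_getD, List.getD_eq_getElem?_getD,
        List.getElem?_eq_getElem (by omega), List.getElem?_eq_getElem (by omega)]
      rfl
  rw [e1, e2] at hc2
  exact hc2

/-! ### multiplication by squares -/

/-- Multiply the last entry (index `cur`) by the squares of the entries `d`, ..., `d + r - 1`. -/
def sqt : ℕ → ℕ → ℕ → SLP
  | _, _, 0 => []
  | cur, d, r + 1 => (.mul, cur, d) :: (.mul, cur + 1, d) :: sqt (cur + 2) (d + 1) r

theorem sqt_length (cur d r : ℕ) : (sqt cur d r).length = 2 * r := by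
  induction r generalizing cur d with
  | zero => rfl
  | succ r ih => rw [sqt, List.length_cons, List.length_cons, ih]; ring

theorem sqt_valid (cur d r : ℕ) (h : d + r ≤ cur + 1) : (sqt cur d r).Valid (cur + 1) := by
  induction r generalizing cur d with
  | zero => trivial
  | succ r ih =>
    refine ⟨by omega, by omega, by omega, by omega, ?_⟩
    exact ih (cur + 2) (d + 1) (by omega)

theorem sqt_val {R : Type*} [CommRing R] (r : ℕ) (a : List R) (d : ℕ)
    (h : d + r ≤ a.length) (h0 : 0 < a.length) :
    (SLP.run (sqt (a.length - 1) d r) a).getLastD 0 =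
      a.getLastD 0 * ∏ i ∈ Finset.range r, (a.getD (d + i) 0) ^ 2 := by
  induction r generalizing a d with
  | zero => simp [sqt, SLP.run]
  | succ r ih =>
    rw [sqt, SLP.run, SLP.run]
    have e0 : a.getD (a.length - 1) 0 = a.getLastD 0 := by
      obtain ⟨l, f, rfl⟩ := (List.eq_nil_or_concat a).resolve_left
        (by intro h; simp [h] at h0)
      simp [List.getD_eq_getElem?_getD]
    set u := Op.mul.app (a.getD (a.length - 1) 0) (a.getD d 0) with hu
    have e1 : (a ++ [u]).getD (a.length - 1 + 1) 0 = u := by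
      rw [Nat.sub_add_cancel h0]
      simp [List.getD_eq_getElem?_getD]
    have e2 : (a ++ [u]).getD d 0 = a.getD d 0 := by
      simp only [List.getD_eq_getElem?_getD]
      rw [List.getElem?_append_left (by omega)]
    rw [e1, e2]
    set v := Op.mul.app u (a.getD d 0) with hv
    have e3 : a.length - 1 + 2 = (a ++ [u] ++ [v]).length - 1 := by simp; omega
    rw [e3, ih (a ++ [u] ++ [v]) (d + 1) (by simp; omega) (by simp)]
    have e4 : (a ++ [u] ++ [v]).getLastD 0 = v := by simp
    have e5 : ∀ i ∈ Finset.range r, ((a ++ [u] ++ [v]).getD (d + 1 + i) 0) ^ 2 =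
        (a.getD (d + (i + 1)) 0) ^ 2 := by
      intro i hi
      rw [Finset.mem_range] at hi
      simp only [List.getD_eq_getElem?_getD]
      rw [List.append_assoc, List.getElem?_append_left (by omega)]
      congr 3
      omega
    rw [e4, Finset.prod_congr rfl e5, Finset.prod_range_succ', hv, hu, e0]
    simp only [Op.app, Nat.add_zero]
    ring

/-- Homogenisation: a program for quotients of integers. -/
theorem hom (n k : ℕ) (F : SLP) : ∃ H : SLP, H.Valid (1 + (n + 2 * k)) ∧
    H.length ≤ 14 * k + 4 * F.length + 5 ∧ ∀ (x : List Bool) (N D : List ℤ), x.length = n →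
      N.length = k → D.length = k →
      (0 < H.val ((1 : ℤ) :: (x.map bit ++ N ++ D)) ↔ (∀ d ∈ D, d ≠ 0) ∧
        0 < F.val ((1 : ℝ) :: (x.map bit ++
          List.zipWith (fun a b : ℤ => (a : ℝ) / (b : ℝ)) N D))) := by
  obtain ⟨H, hv, hlen, hH⟩ := hom_aux n k F
  refine ⟨H ++ sqt (n + 2 * k + H.length) (1 + n + k) k, ?_, ?_, ?_⟩
  · rw [valid_append]
    refine ⟨hv, ?_⟩
    have := sqt_valid (n + 2 * k + H.length) (1 + n + k) k (by omega)
    convert this using 1
    omega
  · rw [List.length_append, sqt_length]; omega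
  · intro x N D hx hN hD
    set a : List ℤ := 1 :: (x.map bit ++ N ++ D) with ha
    have hal : a.length = 1 + (n + 2 * k) := by rw [ha]; simp [hx, hN, hD]; omega
    have hrl : (H.run a).length = 1 + (n + 2 * k) + H.length := by rw [run_length, hal]
    have e1 : SLP.val (H ++ sqt (n + 2 * k + H.length) (1 + n + k) k) a =
        H.val a * ∏ i ∈ Finset.range k, (D.getD i 0) ^ 2 := by
      rw [val_append, SLP.val]
      have := sqt_val k (H.run a) (1 + n + k) (by rw [hrl]; omega) (by rw [hrl]; omega)
      rw [hrl, show 1 + (n + 2 * k) + H.length - 1 = n + 2 * k + H.length by omega] at this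
      rw [this]
      congr 1
      refine Finset.prod_congr rfl fun i hi => ?_
      rw [Finset.mem_range] at hi
      have hpre : ∀ (p : SLP) (b : List ℤ) (j : ℕ), j < b.length →
          (p.run b).getD j 0 = b.getD j 0 := by
        intro p
        induction p with
        | nil => intro b j _; rfl
        | cons c p ih =>
          obtain ⟨o, i, j'⟩ := c
          intro b j hj
          rw [SLP.run, ih _ _ (by simp; omega)]
          simp only [List.getD_eq_getElem?_getD]
          rw [List.getElem?_append_left hj]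
      rw [hpre H a _ (by omega), ha]
      simp only [List.getD_eq_getElem?_getD]
      rw [show 1 + n + k + i = (n + k + i) + 1 by omega, List.getElem?_cons_succ,
        List.getElem?_append_right (by simp [hx, hN])]
      simp [hx, hN]
    rw [e1]
    have hcast : ((H.val a : ℤ) : ℝ) =
        H.val ((1 : ℝ) :: (x.map bit ++ N.map (fun z : ℤ => (z : ℝ)) ++
          D.map (fun z : ℤ => (z : ℝ)))) := by
      have h := val_map (Int.castRingHom ℝ) H a
      rw [show (Int.castRingHom ℝ) (H.val a) = ((H.val a : ℤ) : ℝ) from rfl] at h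
      rw [← h, ha, List.map_cons, map_one, List.map_append, List.map_append, List.map_map]
      congr 1
      congr 1
      congr 1
      congr 1
      refine List.map_congr_left fun c _ => ?_
      cases c <;> simp [bit]
    have hz : List.zipWith (· / ·) (N.map (fun z : ℤ => (z : ℝ))) (D.map (fun z : ℤ => (z : ℝ))) =
        List.zipWith (fun a b : ℤ => (a : ℝ) / (b : ℝ)) N D := by
      rw [List.zipWith_map]
    have hpos : (∀ d ∈ D, d ≠ 0) → 0 < ∏ i ∈ Finset.range k, (D.getD i 0) ^ 2 := by
      intro h
      refine Finset.prod_pos fun i hi => ?_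
      rw [Finset.mem_range] at hi
      have : D.getD i 0 ≠ 0 := by
        refine h _ ?_
        rw [List.getD_eq_getElem?_getD, List.getElem?_eq_getElem (by omega)]
        exact List.getElem_mem _
      positivity
    have hmain : (∀ d ∈ D, d ≠ 0) → (0 < H.val a ↔ 0 < F.val ((1 : ℝ) :: (x.map bit ++
        List.zipWith (fun a b : ℤ => (a : ℝ) / (b : ℝ)) N D))) := by
      intro h
      obtain ⟨c, hc1, hc2⟩ := hH (x.map bit) (N.map (fun z : ℤ => (z : ℝ)))
        (D.map (fun z : ℤ => (z : ℝ))) (by simp [hx]) (by simp [hN]) (by simp [hD]) (by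
          intro d hd
          obtain ⟨z, hz, rfl⟩ := List.mem_map.1 hd
          have h1 : z ≠ 0 := h z hz
          have h2 : 1 ≤ z * z := by
            rcases lt_or_gt_of_ne h1 with h | h <;> nlinarith
          exact_mod_cast h2)
      rw [hz, ← hcast] at hc2
      rw [← Int.cast_pos (R := ℝ), hc2]
      exact mul_pos_iff_of_pos_right (by linarith)
    constructor
    · intro h
      have hall : ∀ d ∈ D, d ≠ 0 := by
        intro d hd h0
        obtain ⟨i, hi, hdi⟩ := List.getElem_of_mem hd
        have : ∏ i ∈ Finset.range k, (D.getD i 0) ^ 2 = 0 := by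
          refine Finset.prod_eq_zero (i := i) (by rw [Finset.mem_range]; omega) ?_
          rw [List.getD_eq_getElem?_getD, List.getElem?_eq_getElem hi]
          simp [hdi, h0]
        rw [this, mul_zero] at h
        exact lt_irrefl _ h
      refine ⟨hall, (hmain hall).1 ?_⟩
      exact (pos_iff_pos_of_mul_pos h).2 (hpos hall)
    · rintro ⟨h1, h2⟩
      exact mul_pos ((hmain h1).2 h2) (hpos h1)

end Pool.Agent.SLPQ
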