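import Pool.Agent.Lib_helper50.SLPQ.Hom

/-!
# Relocation of programs, padding, short programs for integers
-/

namespace Pool.Agent.SLPQ

/-- Relocated address: the first `l` addresses are mapped by `φ`, the others are shifted. -/
def rl (φ : ℕ → ℕ) (l base i : ℕ) : ℕ := if i < l then φ i else base + (i - l)

/-- Relocated program. -/
def reloc (φ : ℕ → ℕ) (l base : ℕ) (p : SLP) : SLP :=
  p.map fun c => (c.1, rl φ l base c.2.1, rl φ l base c.2.2)

theorem reloc_length (φ : ℕ → ℕ) (l base : ℕ) (p : SLP) : (reloc φ l base p).length = p.length := by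
  simp [reloc]

theorem reloc_valid (φ : ℕ → ℕ) (l base : ℕ) (hφ : ∀ i < l, φ i < base) (p : SLP) (t : ℕ)
    (hv : p.Valid (l + t)) : (reloc φ l base p).Valid (base + t) := by
  induction p generalizing t with
  | nil => trivial
  | cons c p ih =>
    obtain ⟨o, i, j⟩ := c
    obtain ⟨h1, h2, h3⟩ := hv
    have key : ∀ i, i < l + t → rl φ l base i < base + t := by
      intro i hi
      rw [rl]
      split_ifs with h
      · have := hφ i h
        omega
      · omega
    exact ⟨key i h1, key j h2, ih (t + 1) h3⟩

theorem run_reloc {R : Type*} [Ring R] (φ : ℕ → ℕ) (l base : ℕ) (a r : List R)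
    (ha : a.length = l) (hr : r.length = base)
    (hφ : ∀ i < l, r.getD (φ i) 0 = a.getD i 0 ∧ φ i < base) (p : SLP) (t : List R)
    (hv : p.Valid (l + t.length)) :
    SLP.run (reloc φ l base p) (r ++ t) = r ++ (SLP.run p (a ++ t)).drop l := by
  induction p generalizing t with
  | nil =>
    rw [reloc, List.map_nil, SLP.run, SLP.run, ← ha, List.drop_left]
  | cons c p ih =>
    obtain ⟨o, i, j⟩ := c
    obtain ⟨h1, h2, h3⟩ := hv
    have key : ∀ i, i < l + t.length → (r ++ t).getD (rl φ l base i) 0 = (a ++ t).getD i 0 := by
      intro i hi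
      rw [rl]
      split_ifs with h
      · obtain ⟨e, hlt⟩ := hφ i h
        simp only [List.getD_eq_getElem?_getD] at e ⊢
        rw [List.getElem?_append_left (by omega), List.getElem?_append_left (by omega), e]
      · simp only [List.getD_eq_getElem?_getD]
        rw [List.getElem?_append_right (by omega), List.getElem?_append_right (by omega)]
        congr 2
        omega
    rw [reloc, List.map_cons, SLP.run, SLP.run]
    rw [key i h1, key j h2, List.append_assoc, List.append_assoc]
    have := ih (t ++ [o.app ((a ++ t).getD i 0) ((a ++ t).getD j 0)]) (by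
      rw [List.length_append, List.length_singleton]; exact h3)
    rw [reloc] at this
    exact this

/-- The initial entries are not changed by a program. -/
theorem run_getD {R : Type*} [Ring R] (p : SLP) (b : List R) (j : ℕ) (hj : j < b.length) :
    (p.run b).getD j 0 = b.getD j 0 := by
  induction p generalizing b with
  | nil => rfl
  | cons c p ih =>
    obtain ⟨o, i, j'⟩ := c
    rw [SLP.run, ih _ (by simp; omega)]
    simp only [List.getD_eq_getElem?_getD]
    rw [List.getElem?_append_left hj]

theorem getD_last {R : Type*} [Ring R] (a : List R) (h0 : 0 < a.length) :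
    a.getD (a.length - 1) 0 = a.getLastD 0 := by
  obtain ⟨l, f, rfl⟩ := (List.eq_nil_or_concat a).resolve_left (by intro h; simp [h] at h0)
  simp [List.getD_eq_getElem?_getD]

/-! ### padding -/

theorem pad1 {R : Type*} [Ring R] (p : SLP) (a : List R) (h1 : a.getD 0 0 = 1)
    (ha : 0 < a.length) :
    SLP.val (p ++ [(Op.mul, a.length + p.length - 1, 0)]) a = SLP.val p a := by
  rw [val_append, SLP.val, SLP.run, SLP.run, List.getLastD_concat, run_getD p a 0 ha, h1]
  have h := getD_last (p.run a) (by rw [run_length]; omega)
  rw [run_length] at h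
  rw [h]
  simp [Op.app, SLP.val]

theorem pad1_valid (p : SLP) (l : ℕ) (hl : 0 < l) (hp : p.Valid l) :
    SLP.Valid (p ++ [(Op.mul, l + p.length - 1, 0)]) l := by
  rw [valid_append]
  exact ⟨hp, by omega, by omega, trivial⟩

theorem pad (p : SLP) (hp : p.Valid 1) (s : ℕ) (hs : p.length ≤ s) :
    ∃ p' : SLP, p'.Valid 1 ∧ p'.length = s ∧ p'.val ([1] : List ℤ) = p.val ([1] : List ℤ) := by
  induction s with
  | zero => exact ⟨p, hp, by omega, rfl⟩
  | succ s ih =>
    rcases Nat.lt_or_ge s p.length with h | h
    · exact ⟨p, hp, by omega, rfl⟩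
    · obtain ⟨p', h1, h2, h3⟩ := ih h
      refine ⟨p' ++ [(Op.mul, 1 + p'.length - 1, 0)], pad1_valid p' 1 one_pos h1, by simp [h2], ?_⟩
      have := pad1 p' ([1] : List ℤ) rfl (by simp)
      rw [← h3, ← this]
      rfl

/-! ### short programs for integers -/

theorem short_nat (m t : ℕ) (ht : t < 2 ^ m) :
    ∃ A : SLP, A.Valid 1 ∧ A.length ≤ 2 * m + 1 ∧ A.val ([1] : List ℤ) = (t : ℤ) := by
  induction m generalizing t with
  | zero =>
    have : t = 0 := by simpa using ht
    subst this
    exact ⟨[(.sub, 0, 0)], ⟨by norm_num, by norm_num, trivial⟩, by simp, by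
      simp [SLP.val, SLP.run, Op.app]⟩
  | succ m ih =>
    obtain ⟨A, h1, h2, h3⟩ := ih (t / 2) (by rw [pow_succ] at ht; omega)
    have hl : (A.run ([1] : List ℤ)).length = 1 + A.length := by rw [run_length]; simp
    have e0 : (A.run ([1] : List ℤ)).getD A.length 0 = ((t / 2 : ℕ) : ℤ) := by
      have := getD_last (A.run ([1] : List ℤ)) (by omega)
      rw [hl, Nat.add_sub_cancel_left] at this
      rw [this, ← h3]; rfl
    have v1 : (A ++ [(Op.add, A.length, A.length)]).Valid 1 := by
      rw [valid_append]; exact ⟨h1, by omega, by omega, trivial⟩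
    have r1 : (A ++ [(Op.add, A.length, A.length)]).run ([1] : List ℤ) =
        A.run [1] ++ [2 * ((t / 2 : ℕ) : ℤ)] := by
      rw [run_append, SLP.run, SLP.run, e0, Op.app, two_mul]
    rcases Nat.mod_two_eq_zero_or_one t with h | h
    · refine ⟨A ++ [(Op.add, A.length, A.length)], v1, by simp; omega, ?_⟩
      rw [SLP.val, r1, List.getLastD_concat]
      omega
    · refine ⟨A ++ [(Op.add, A.length, A.length)] ++ [(Op.add, A.length + 1, 0)], ?_, ?_, ?_⟩
      · rw [valid_append]
        refine ⟨v1, ?_, ?_, trivial⟩
        · simp
        · omega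
      · simp; omega
      · rw [SLP.val, run_append, r1, SLP.run, SLP.run, List.getLastD_concat]
        have e1 : (A.run [1] ++ [2 * ((t / 2 : ℕ) : ℤ)]).getD (A.length + 1) 0 =
            2 * ((t / 2 : ℕ) : ℤ) := by
          rw [show A.length + 1 = (A.run ([1] : List ℤ)).length by rw [hl]; omega]
          simp [List.getD_eq_getElem?_getD]
        have e2 : (A.run [1] ++ [2 * ((t / 2 : ℕ) : ℤ)]).getD 0 0 = 1 := by
          rw [← r1, run_getD _ _ 0 (by simp)]
          rfl
        rw [e1, e2, Op.app]
        omega

/-! ### several programs side by side -/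

/-- Programs of length `s`, one after the other, all starting from the entry `0`. -/
def cat (s : ℕ) : ℕ → List SLP → SLP
  | _, [] => []
  | base, p :: L => reloc (fun _ => 0) 1 base p ++ cat s (base + s) L

theorem cat_length (s : ℕ) (L : List SLP) (hL : ∀ p ∈ L, p.length = s) (base : ℕ) :
    (cat s base L).length = L.length * s := by
  induction L generalizing base with
  | nil => simp [cat]
  | cons p L ih =>
    rw [cat, List.length_append, reloc_length, ih (fun q hq => hL q (List.mem_cons_of_mem _ hq)),
      hL p List.mem_cons_self, List.length_cons]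
    ring

theorem cat_valid (s : ℕ) (L : List SLP) (hL : ∀ p ∈ L, p.length = s ∧ p.Valid 1) (base : ℕ)
    (hb : 0 < base) : (cat s base L).Valid base := by
  induction L generalizing base with
  | nil => trivial
  | cons p L ih =>
    obtain ⟨h1, h2⟩ := hL p List.mem_cons_self
    rw [cat, valid_append, reloc_length, h1]
    refine ⟨?_, ih (fun q hq => hL q (List.mem_cons_of_mem _ hq)) (base + s) (by omega)⟩
    have := reloc_valid (fun _ => 0) 1 base (fun i _ => hb) p 0 h2
    exact this

theorem run_cat (s : ℕ) (L : List SLP) (hL : ∀ p ∈ L, p.length = s ∧ p.Valid 1)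
    (r : List ℤ) (hr : 0 < r.length) (h1 : r.getD 0 0 = 1) :
    SLP.run (cat s r.length L) r = r ++ L.flatMap fun p => (p.run ([1] : List ℤ)).drop 1 := by
  induction L generalizing r with
  | nil => simp [cat, SLP.run]
  | cons p L ih =>
    obtain ⟨h2, h3⟩ := hL p List.mem_cons_self
    rw [cat, run_append]
    have e := run_reloc (fun _ => 0) 1 r.length ([1] : List ℤ) r rfl rfl (by
      intro i hi
      have : i = 0 := by omega
      subst this
      exact ⟨h1, hr⟩) p [] h3
    rw [List.append_nil, List.append_nil] at e
    rw [e]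
    have hlen : (r ++ (p.run ([1] : List ℤ)).drop 1).length = r.length + s := by
      rw [List.length_append, List.length_drop, run_length, h2]
      simp
    have := ih (fun q hq => hL q (List.mem_cons_of_mem _ hq))
      (r ++ (p.run ([1] : List ℤ)).drop 1) (by rw [hlen]; omega) (by
        simp only [List.getD_eq_getElem?_getD] at h1 ⊢
        rw [List.getElem?_append_left hr]
        exact h1)
    rw [hlen] at this
    rw [this, List.flatMap_cons, List.append_assoc]

theorem cat_get (s : ℕ) (hs : 0 < s) (L : List SLP) (hL : ∀ p ∈ L, p.length = s ∧ p.Valid 1)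
    (r : List ℤ) (e : ℕ) (he : e < L.length) :
    (r ++ L.flatMap fun p => (p.run ([1] : List ℤ)).drop 1).getD
      (r.length + (e + 1) * s - 1) 0 = (L[e]).val ([1] : List ℤ) := by
  induction L generalizing r e with
  | nil => simp at he
  | cons p L ih =>
    obtain ⟨h2, h3⟩ := hL p List.mem_cons_self
    have hlen : (r ++ (p.run ([1] : List ℤ)).drop 1).length = r.length + s := by
      rw [List.length_append, List.length_drop, run_length, h2]
      simp
    rw [List.flatMap_cons, ← List.append_assoc]
    cases e with
    | zero =>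
      have e1 : r.length + (0 + 1) * s - 1 < (r ++ (p.run ([1] : List ℤ)).drop 1).length := by
        rw [hlen]; omega
      simp only [List.getD_eq_getElem?_getD]
      rw [List.getElem?_append_left e1, List.getElem?_append_right (by omega),
        List.getElem?_drop, List.getElem_cons_zero]
      have e2 : (1 + (r.length + (0 + 1) * s - 1 - r.length)) =
          (p.run ([1] : List ℤ)).length - 1 := by
        rw [run_length, h2]; simp; omega
      rw [e2, ← List.getD_eq_getElem?_getD]
      exact getD_last _ (by rw [run_length]; simp)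
    | succ e =>
      have := ih (fun q hq => hL q (List.mem_cons_of_mem _ hq))
        (r ++ (p.run ([1] : List ℤ)).drop 1) e (by simpa using he)
      rw [hlen] at this
      rw [List.getElem_cons_succ, ← this]
      congr 1
      ring_nf

end Pool.Agent.SLPQ
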